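import Pool.Agent.Lib.MP_ecd12e_nt.ZD.Refl

/-! The reflection principle at real points. -/

namespace Pool.Agent.Lib.MP_ecd12e_nt.ZD

open Finset Real MeasureTheory
open Pool.Agent.Lib.MP_ecd12e_nt.Bar (ei)
open Pool.Agent.Lib.MP_ecd12e_nt.Sch (Sm gg ff)

/- The proof of `Sch.approx` with a real `t`. -/
theorem approxR {w : ℝ → ℝ} (h : Sm w) {j : ℕ} (hj : 2 ≤ j) :
    ∃ C : ℝ, 0 ≤ C ∧ ∀ (N M : ℕ) (U t : ℝ), 1 ≤ N → 1 ≤ M → 0 < U →
      U * (1 + |t|) ≤ M * N →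
      ‖gg w N t - N * ff w t 0 - (∑ m ∈ Icc 1 M, (N : ℂ) * ff w t (1 * m * N) +
        ∑ m ∈ Icc 1 M, (N : ℂ) * ff w t (-1 * m * N))‖ ≤ C * (N * M) / U ^ j := by
  obtain ⟨C, hC0, hC⟩ := Sch.decay_xi j h
  refine ⟨2 * C, by positivity, fun N M U t hN hM hU hUt => ?_⟩
  have hN' : (0 : ℝ) < N := by exact_mod_cast hN
  have hM' : (0 : ℝ) < M := by exact_mod_cast hM
  let b : ℕ → ℂ := fun n => (N : ℂ) * ff w t (n * N) + N * ff w t (-n * N)
  have h1 : HasSum b (gg w N t + N * ff w t 0) := by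
    have h2 := (Sch.poisson h hN t).nat_add_neg
    simpa only [Int.cast_natCast, Int.cast_neg, Int.cast_zero, zero_mul] using h2
  have h2 := (hasSum_nat_add_iff' (M + 1)).2 h1
  set K : ℂ := ∑ m ∈ Icc 1 M, (N : ℂ) * ff w t (1 * m * N) +
    ∑ m ∈ Icc 1 M, (N : ℂ) * ff w t (-1 * m * N) with hK
  have h3 : ∑ i ∈ range (M + 1), b i = 2 * (N * ff w t 0) + K := by
    rw [range_eq_Ico, sum_eq_sum_Ico_succ_bot (Nat.succ_pos M), hK, ← sum_add_distrib]
    congr 1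
    · simp only [b, Nat.cast_zero, neg_zero, zero_mul]
      ring
    · refine sum_congr rfl fun m _ => ?_
      simp only [b, one_mul, neg_mul]
  have h4 : gg w N t + N * ff w t 0 - ∑ i ∈ range (M + 1), b i =
      gg w N t - N * ff w t 0 - K := by
    rw [h3]
    ring
  rw [h4] at h2
  have hq : (1 + |t|) / N ≤ M / U := by
    rw [div_le_div_iff₀ hN' hU, mul_comm]
    exact hUt
  have hb : ∀ n : ℕ, ‖b (n + (M + 1))‖ ≤
      2 * C * (N * M) / U ^ j * (M / ((n : ℝ) + M) - M / (((n + 1 : ℕ) : ℝ) + M)) := by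
    intro n
    have hx : (0 : ℝ) < (n : ℝ) + M := by positivity
    set x : ℝ := ((n + (M + 1) : ℕ) : ℝ) with hxd
    have hx' : x = n + M + 1 := by rw [hxd]; push_cast; ring
    have hx0 : 0 < x := by rw [hx']; positivity
    have k1 := Sch.poisson_bound hC hN t hx0.ne'
    have k2 := Sch.poisson_bound hC hN t (neg_ne_zero.2 hx0.ne')
    rw [abs_neg] at k2
    rw [abs_of_pos hx0] at k1 k2
    have k3 : ((1 + |t|) / N / x) ^ j ≤ (M / x) ^ 2 / U ^ j := by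
      calc ((1 + |t|) / N / x) ^ j ≤ (M / U / x) ^ j := by gcongr
        _ = (M / x) ^ j / U ^ j := by rw [div_right_comm, div_pow]
        _ ≤ (M / x) ^ 2 / U ^ j := by
          refine div_le_div_of_nonneg_right (pow_le_pow_of_le_one (by positivity) ?_ hj)
            (by positivity)
          rw [div_le_one hx0, hx']
          linarith [Nat.cast_nonneg (α := ℝ) n]
    have k4 : ((M : ℝ) / x) ^ 2 ≤ M * (M / ((n : ℝ) + M) - M / (((n + 1 : ℕ) : ℝ) + M)) := by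
      have e : (M : ℝ) * (M / ((n : ℝ) + M) - M / (((n + 1 : ℕ) : ℝ) + M)) =
          M ^ 2 / (((n : ℝ) + M) * x) := by
        rw [hx']
        push_cast
        field_simp
        ring
      rw [e, div_pow]
      refine div_le_div_of_nonneg_left (by positivity) (by positivity) ?_
      rw [sq]
      exact mul_le_mul_of_nonneg_right (by rw [hx']; linarith) hx0.le
    calc ‖b (n + (M + 1))‖ ≤ _ := norm_add_le _ _
      _ ≤ 2 * (N * C * ((1 + |t|) / N / x) ^ j) := by linarith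
      _ ≤ 2 * (N * C * (M * (M / ((n : ℝ) + M) - M / (((n + 1 : ℕ) : ℝ) + M)) / U ^ j)) := by
        gcongr
        exact k3.trans (div_le_div_of_nonneg_right k4 (by positivity))
      _ = _ := by ring
  refine le_of_tendsto' h2.tendsto_sum_nat.norm fun n => ?_
  refine (norm_sum_le _ _).trans ((sum_le_sum fun i _ => hb i).trans ?_)
  rw [← mul_sum, sum_range_sub' (fun i : ℕ => (M : ℝ) / ((i : ℝ) + M))]
  refine mul_le_of_le_one_right (by positivity) ?_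
  rw [Nat.cast_zero, zero_add, div_self hM'.ne']
  exact sub_le_self _ (by positivity)

lemma app_blocks (f : ℕ → ℂ) (I : ℕ) :
    ∑ m ∈ Ico 1 (2 ^ I), f m = ∑ i ∈ range I, ∑ m ∈ Ico (2 ^ i) (2 * 2 ^ i), f m := by
  induction I with
  | zero => simp
  | succ I ih =>
    rw [sum_range_succ, ← ih, pow_succ']
    exact (sum_Ico_consecutive f Nat.one_le_two_pow (by omega)).symm

lemma app_mj_nonneg (μ : ℕ) (t : ℝ) : 0 ≤ mj μ t :=
  add_nonneg (norm_nonneg _) (div_nonneg (sum_nonneg fun _ _ => norm_nonneg _) (Nat.cast_nonneg _))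

/- `approxR` with `M = 2 ^ I - 1`, `Icc 1 M` is the union of the blocks `Ico (2 ^ i) (2 * 2 ^ i)`,
`i < I`; `Sch.decay_t`, `block_le`. -/
theorem refl {w : ℝ → ℝ} (h : Sm w) {j : ℕ} (hj : 2 ≤ j) :
    ∃ C : ℝ, 0 ≤ C ∧ ∀ (N I : ℕ) (U t : ℝ), 1 ≤ N → 1 ≤ I → 0 < U →
      2 * U * (1 + |t|) ≤ 2 ^ I * N →
      ‖gg w N t‖ ≤ C * (N / (1 + t ^ 2) + N * 2 ^ I / U ^ j +
        ∑ i ∈ range I, √(N / 2 ^ i) * mj (2 ^ i) t) := by
  obtain ⟨C1, hC1, h1⟩ := approxR h hj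
  obtain ⟨C2, hC2, h2⟩ := Sch.decay_t h
  obtain ⟨C3, hC3, h3⟩ := block_le h
  refine ⟨C1 + C2 + 2 * C3, by positivity, fun N I U t hN hI hU hUt => ?_⟩
  have hN' : (0 : ℝ) < N := by exact_mod_cast hN
  have h2I : 2 ≤ 2 ^ I := by
    calc 2 = 2 ^ 1 := by norm_num
      _ ≤ 2 ^ I := Nat.pow_le_pow_right (by norm_num) hI
  obtain ⟨M, hM⟩ : ∃ M : ℕ, 2 ^ I = M + 1 := ⟨2 ^ I - 1, by omega⟩
  have hM1 : 1 ≤ M := by omega
  have hM1' : (1 : ℝ) ≤ M := by exact_mod_cast hM1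
  have hMR : (2 : ℝ) ^ I = M + 1 := by exact_mod_cast hM
  have hUM : U * (1 + |t|) ≤ M * N := by
    rw [hMR] at hUt
    nlinarith [mul_le_mul_of_nonneg_right hM1' hN'.le]
  have a1 := h1 N M U t hN hM1 hU hUM
  have hIc : Icc 1 M = Ico 1 (2 ^ I) := by
    ext x
    rw [mem_Icc, mem_Ico]
    omega
  set S : ℝ := ∑ i ∈ range I, √(N / 2 ^ i) * mj (2 ^ i) t with hS
  have hb : ∀ s : ℝ, |s| = 1 → ‖∑ m ∈ Icc 1 M, (N : ℂ) * ff w t (s * m * N)‖ ≤ C3 * S := by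
    intro s hs
    rw [hIc, app_blocks, hS, mul_sum]
    refine (norm_sum_le _ _).trans (sum_le_sum fun i _ => ?_)
    have h4 := h3 N (2 ^ i) s t hN (Nat.one_le_two_pow) hs
    rw [Nat.cast_pow, Nat.cast_ofNat, mul_assoc] at h4
    exact h4
  have b1 := hb 1 abs_one
  have b2 := hb (-1) (by rw [abs_neg, abs_one])
  have hS0 : 0 ≤ S := sum_nonneg fun i _ => mul_nonneg (Real.sqrt_nonneg _) (app_mj_nonneg _ _)
  have a2 : ‖(N : ℂ) * ff w t 0‖ ≤ C2 * (N / (1 + t ^ 2)) := by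
    rw [norm_mul, Complex.norm_natCast]
    calc (N : ℝ) * ‖ff w t 0‖ ≤ N * (C2 / (1 + t ^ 2)) := mul_le_mul_of_nonneg_left (h2 t) hN'.le
      _ = _ := by ring
  have a3 : C1 * (N * M) / U ^ j ≤ C1 * (N * 2 ^ I / U ^ j) := by
    rw [mul_div_assoc, hMR]
    gcongr
    linarith
  set A : ℂ := ∑ m ∈ Icc 1 M, (N : ℂ) * ff w t (1 * m * N)
  set B : ℂ := ∑ m ∈ Icc 1 M, (N : ℂ) * ff w t (-1 * m * N)
  have e : gg w N t = (gg w N t - N * ff w t 0 - (A + B)) + N * ff w t 0 + A + B := by ring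
  have a4 : ‖gg w N t‖ ≤ ‖gg w N t - N * ff w t 0 - (A + B)‖ + ‖(N : ℂ) * ff w t 0‖ + ‖A‖ + ‖B‖ := by
    conv_lhs => rw [e]
    exact (norm_add_le _ _).trans (add_le_add ((norm_add_le _ _).trans
      (add_le_add (norm_add_le _ _) le_rfl)) le_rfl)
  have p1 : (0 : ℝ) ≤ N / (1 + t ^ 2) := by positivity
  have p2 : (0 : ℝ) ≤ N * 2 ^ I / U ^ j := by positivity
  set X : ℝ := N / (1 + t ^ 2)
  set Y : ℝ := N * 2 ^ I / U ^ j
  have q1 := mul_nonneg hC1 p1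
  have q2 := mul_nonneg hC1 hS0
  have q3 := mul_nonneg hC2 p2
  have q4 := mul_nonneg hC2 hS0
  have q5 := mul_nonneg hC3 p1
  have q6 := mul_nonneg hC3 p2
  calc ‖gg w N t‖ ≤ C1 * Y + C2 * X + C3 * S + C3 * S := by linarith
    _ ≤ _ := by linarith

end Pool.Agent.Lib.MP_ecd12e_nt.ZD
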