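import Pool.Agent.Lib.MP_ecd12e_nt.ZD.Final
import Pool.Agent.Lib.MP_ecd12e_nt.DH.Big

/-! The large value bound in the form used for the zeros. -/

namespace Pool.Agent.Lib.MP_ecd12e_nt.ZD

open Finset Real

theorem eta : Eta := by
  intro A ε hε
  obtain ⟨C, a, hC, H⟩ := DH.weak2 A hε
  refine ⟨C, a, hC, Nat.cast_nonneg a, fun N T σ η b W hN h1 h2 s1 s2 e0 e1 hb hW => ?_⟩
  have h := H σ N T η⁻¹ (η * (N : ℝ) ^ σ) b W s1 s2 hN h1 h2 (one_le_inv₀ e0 |>.2 e1)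
    (by rw [inv_mul_cancel_left₀ e0.ne']) ⟨hb, fun t ht => ⟨by exact_mod_cast (hW t ht).1,
      (hW t ht).2.1⟩, fun t ht => (hW t ht).2.2⟩
  rw [Real.rpow_natCast]
  refine h.trans (le_of_eq ?_)
  rw [inv_pow]
  ring

end Pool.Agent.Lib.MP_ecd12e_nt.ZD
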