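import Pool.Agent.Lib.MP_ecd12e_nt.ZD.Defs

/-! The mollified head. -/

namespace Pool.Agent.Lib.MP_ecd12e_nt.ZD

open Finset Real
open Pool.Agent.Lib.MP_ecd12e_nt.Bar (ei)

theorem norm_mo (X : ℕ) {β : ℝ} (hβ : 0 ≤ β) (t : ℝ) : ‖mo X β t‖ ≤ X := by
  refine (norm_sum_le _ _).trans ((sum_le_card_nsmul _ _ 1 fun d hd => ?_).trans (by simp))
  rw [norm_mul, norm_pw, Complex.norm_intCast]
  refine mul_le_one₀ (by exact_mod_cast ArithmeticFunction.abs_moebius_le_one) (by positivity) ?_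
  exact Real.rpow_le_one_of_one_le_of_nonpos (by exact_mod_cast (mem_Ioc.1 hd).1) (by linarith)

theorem abs_co (X Y n : ℕ) : |co X Y n| ≤ n.divisors.card := by
  rw [co, Nat.sum_divisorsAntidiagonal fun d m =>
    if d ≤ X then ((ArithmeticFunction.moebius d : ℤ) : ℝ) * cut ((m : ℕ) / Y) else 0]
  refine (abs_sum_le_sum_abs _ _).trans ((sum_le_card_nsmul _ _ 1 fun d _ => ?_).trans (by simp))
  split_ifs
  · rw [abs_mul, abs_of_nonneg (cut_nonneg _)]
    exact mul_le_one₀ (by exact_mod_cast ArithmeticFunction.abs_moebius_le_one) (cut_nonneg _)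
      (cut_le_one _)
  · simp

theorem moll_sum {X Y : ℕ} (hY : 1 ≤ Y) (β t : ℝ) :
    hd Y β t * mo X β t = ∑ n ∈ Ioc 0 (4 * Y * X), (co X Y n : ℂ) * pw β t n := by
  rw [mul_comm, mo, hd, sum_mul_sum, ← sum_product', ← sum_fiberwise_of_maps_to
    (t := Ioc 0 (4 * Y * X)) (g := fun p : ℕ × ℕ => p.1 * p.2) fun p hp => by
      simp only [mem_product, mem_Ioc] at hp ⊢
      exact ⟨Nat.mul_pos hp.1.1 hp.2.1, by nlinarith [Nat.mul_le_mul hp.1.2 hp.2.2]⟩]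
  refine sum_congr rfl fun n hn => ?_
  have hn0 := (mem_Ioc.1 hn).1
  rw [co, Complex.ofReal_sum, sum_mul]
  refine sum_subset_zero_on_sdiff (fun p hp => ?_) (fun p hp => ?_) fun p hp => ?_
  · exact Nat.mem_divisorsAntidiagonal.2 ⟨(mem_filter.1 hp).2, hn0.ne'⟩
  · simp only [mem_sdiff, Nat.mem_divisorsAntidiagonal, mem_filter, mem_product, mem_Ioc] at hp
    have h1 := Nat.pos_of_mul_pos_right (hp.1.1 ▸ hn0)
    have h2 := Nat.pos_of_mul_pos_left (hp.1.1 ▸ hn0)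
    split_ifs with h3
    · have h4 : ((3 * Y : ℕ) : ℝ) < p.2 := by
        exact_mod_cast not_le.1 fun h5 => hp.2 ⟨⟨⟨h1, h3⟩, h2, h5⟩, hp.1.1⟩
      have h5 : (0 : ℝ) < Y := by exact_mod_cast hY
      rw [cut_zero (by rw [le_div_iff₀ h5]; push_cast at h4; linarith)]
      simp
    · simp
  · simp only [mem_filter, mem_product, mem_Ioc] at hp
    rw [if_pos hp.1.1.2, ← hp.2, pw_mul _ _ hp.1.1.1 hp.1.2.1]
    push_cast
    ring

theorem moll_co {X Y n : ℕ} (h : X ≤ Y) (h0 : 0 < n) (hn : n ≤ X) :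
    co X Y n = if n = 1 then 1 else 0 := by
  have h1 := congrArg (fun f : ArithmeticFunction ℝ => f n)
    (ArithmeticFunction.coe_moebius_mul_coe_zeta (R := ℝ))
  simp only [ArithmeticFunction.mul_apply, ArithmeticFunction.one_apply] at h1
  rw [← h1]
  refine sum_congr rfl fun p hp => ?_
  have h2 := (Nat.mem_divisorsAntidiagonal.1 hp).1
  have h3 : p.1 ≤ n := Nat.le_of_dvd h0 ⟨_, h2.symm⟩
  have h4 : p.2 ≤ n := Nat.le_of_dvd h0 ⟨_, h2.symm.trans (mul_comm _ _)⟩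
  have h5 : p.2 ≠ 0 := (Nat.pos_of_mul_pos_left (h2 ▸ h0)).ne'
  have h6 : (p.2 : ℝ) / Y ≤ 1 := div_le_one_of_le₀ (by exact_mod_cast h4.trans (hn.trans h))
    (Nat.cast_nonneg _)
  rw [if_pos (h3.trans hn), cut_one (by linarith)]
  simp [ArithmeticFunction.natCoe_apply, ArithmeticFunction.zeta_apply, h5]

theorem moll_dy (f : ℕ → ℂ) (X j : ℕ) : ∑ n ∈ Ioc 0 (2 ^ j * X), f n =
    ∑ n ∈ Ioc 0 X, f n + ∑ i ∈ range j, ∑ n ∈ Ioc (2 ^ i * X) (2 * (2 ^ i * X)), f n := by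
  induction j with
  | zero => simp
  | succ j ih =>
    rw [sum_range_succ, ← add_assoc, ← ih, sum_Ioc_consecutive _ (Nat.zero_le _) (by omega),
      pow_succ', mul_assoc]

/- The product is `∑ n ∈ Ioc 0 (2 ^ (j0 + 2) X), co X Y n * pw n` with `Y = 2 ^ j0` (group the
pairs `(d, m)` by `n = d m`, `pw_mul`; pairs with `m > 3 Y` have `cut (m / Y) = 0`). For
`1 ≤ n ≤ X` every divisor `d` is at most `X` and `cut (m / Y) = 1`, so `co X Y n` is the sum of
the Moebius function over the divisors of `n`: `1` for `n = 1`, else `0`. The rest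
`Ioc X (2 ^ (j0 + 2) X)` is cut into dyadic blocks (`sum_Ioc_consecutive`, induction). -/
theorem moll {X j0 : ℕ} (hX : 1 ≤ X) (h : X ≤ 2 ^ j0) (β t : ℝ) :
    hd (2 ^ j0) β t * mo X β t =
      1 + ∑ i ∈ range (j0 + 2), bl X (2 ^ j0) (2 ^ i * X) β t := by
  rw [moll_sum (hX.trans h), show 4 * 2 ^ j0 = 2 ^ (j0 + 2) by ring, moll_dy,
    sum_eq_single_of_mem 1 (mem_Ioc.2 ⟨one_pos, hX⟩) fun n hn h1 => by
      rw [moll_co h (mem_Ioc.1 hn).1 (mem_Ioc.1 hn).2, if_neg h1]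
      simp, moll_co h one_pos hX, if_pos rfl, pw_one]
  simp [bl]

end Pool.Agent.Lib.MP_ecd12e_nt.ZD
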