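import Pool.Agent.Lib.MP_ecd12e_nt.ZD.Tay
import Pool.Agent.Lib.MP_ecd12e_nt.ZD.Moll

/-! Points at which a block of the mollified head is large. -/

namespace Pool.Agent.Lib.MP_ecd12e_nt.ZD

open Finset Real
open Pool.Agent.Lib.MP_ecd12e_nt.Bar (ei)

/-- The coefficients of a block, with `0` at the left end. -/
noncomputable def one_a (X Y N n : ℕ) : ℂ := if n = N then 0 else (co X Y n : ℂ)

lemma one_bl (X Y N : ℕ) (β t : ℝ) :
    ∑ n ∈ Icc N (2 * N), one_a X Y N n * pw β t n = bl X Y N β t := by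
  rw [← Ioc_insert_left (show N ≤ 2 * N by omega), sum_insert (by simp), one_a, if_pos rfl,
    zero_mul, zero_add]
  exact sum_congr rfl fun n hn => by rw [one_a, if_neg (mem_Ioc.1 hn).1.ne']

lemma one_log {T g : ℝ} {J : ℕ} (hT : 1 ≤ T) (hg : 0 < g) (h : (2 : ℝ) ^ J ≤ 2 * T ^ 2) :
    (J : ℝ) + 2 ≤ (3 + 4 / g) * T ^ g := by
  have h1 := Real.log_le_log (by positivity) h
  rw [Real.log_pow, Real.log_mul two_ne_zero (by positivity), Real.log_pow] at h1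
  have h2 := Real.log_two_gt_d9
  have h3 := Real.log_le_rpow_div (x := T) (by linarith) hg
  have h4 : 1 ≤ T ^ g := Real.one_le_rpow hT hg.le
  have h5 : 0 ≤ Real.log T := Real.log_nonneg hT
  have h6 : (J : ℝ) ≤ 1 + 4 * Real.log T := by
    push_cast at h1
    nlinarith
  have e : (3 + 4 / g) * T ^ g = 3 * T ^ g + 4 * (T ^ g / g) := by ring
  linarith

/-- One point: a Taylor coefficient of the block is large at the integer part. -/
lemma one_pt {X Y N J : ℕ} (hN : 1 ≤ N) (hJ : 1 ≤ J) {B G T σ β u : ℝ} (hB : 0 < B)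
    (ha : ∀ n ∈ Icc N (2 * N), ‖one_a X Y N n‖ ≤ B) (hσ : 0 ≤ σ) (h0 : σ ≤ β) (h1 : β ≤ 1)
    (hG : (J : ℝ) + 2 ≤ G) (hTJ : T ^ 2 ≤ 2 ^ J) (hs : 48 * B * N * G ≤ T ^ 2)
    (hb : 1 / (3 * ((J : ℝ) + 2)) ≤ ‖bl X Y N β u‖) :
    ∃ j < J, 1 / (30 * B * G) * (N : ℝ) ^ σ ≤
      ‖∑ n ∈ Icc N (2 * N), one_a X Y N n * ((Real.log (n / N) ^ j : ℝ) : ℂ) *
        ei ((⌊u⌋ : ℤ) * Real.log n)‖ / B := by
  obtain ⟨j, hj, h⟩ := taylor hN hJ ha (hσ.trans h0) h1 u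
  refine ⟨j, hj, ?_⟩
  rw [one_bl] at h
  generalize ‖∑ n ∈ Icc N (2 * N), one_a X Y N n * ((Real.log (n / N) ^ j : ℝ) : ℂ) *
    ei ((⌊u⌋ : ℤ) * Real.log n)‖ = Q at h ⊢
  have hN1 : (1 : ℝ) ≤ N := by exact_mod_cast hN
  have hG0 : 0 < G := lt_of_lt_of_le (by positivity) hG
  have k1 : (N : ℝ) ^ σ ≤ (N : ℝ) ^ β := Real.rpow_le_rpow_of_exponent_le hN1 h0
  have k2 : 1 ≤ (N : ℝ) ^ σ := Real.one_le_rpow hN1 hσ
  have k3 : 1 / (3 * G) ≤ ‖bl X Y N β u‖ :=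
    (one_div_le_one_div_of_le (by positivity) (by linarith)).trans hb
  have k4 : (N : ℝ) ^ σ * (1 / (3 * G)) ≤ (N : ℝ) ^ β * ‖bl X Y N β u‖ :=
    mul_le_mul k1 k3 (by positivity) (by positivity)
  have k5 : 8 * B * N / 2 ^ J ≤ 1 / (6 * G) := by
    rw [div_le_div_iff₀ (by positivity) (by positivity)]
    linarith
  have k6 : 1 / (6 * G) ≤ (N : ℝ) ^ σ * (1 / (6 * G)) := le_mul_of_one_le_left (by positivity) k2
  have e1 : (N : ℝ) ^ σ * (1 / (3 * G)) = 2 * ((N : ℝ) ^ σ * (1 / (6 * G))) := by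
    field_simp
    ring
  have e2 : 1 / (30 * B * G) * (N : ℝ) ^ σ * B = (N : ℝ) ^ σ * (1 / (6 * G)) / 5 := by
    field_simp
    ring
  rw [le_div_iff₀ hB, e2]
  linarith

theorem class_one (h : Eta) {δ ε : ℝ} (hδ : 0 < δ) (hε : 0 < ε) :
    ∃ C T1 : ℝ, 0 ≤ C ∧ ∀ (T σ : ℝ) (X Y N J : ℕ) (K : Finset ℤ) (β t : ℤ → ℝ), T1 ≤ T →
      T ^ δ ≤ N → (N : ℝ) ^ 2 ≤ 4 * T → T ^ 2 ≤ 2 ^ J → (2 : ℝ) ^ J ≤ 2 * T ^ 2 →
      7 / 9 ≤ σ → σ ≤ 1 → Pts K β t σ T →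
      (∀ k ∈ K, 1 / (3 * ((J : ℝ) + 2)) ≤ ‖bl X Y N (β k) (t k)‖) →
      (K.card : ℝ) ≤ C * T ^ (2 - 2 * σ + ε) := by
  obtain ⟨C0, K0, hC0, hK0, hE⟩ := h (2 / δ) (ε / 2) (by positivity)
  obtain ⟨g, hg, hg1, hg2⟩ : ∃ g : ℝ, 0 < g ∧ g ≤ 1 / 4 ∧ g * (2 * (K0 + 1)) ≤ ε / 2 := by
    refine ⟨min (1 / 4) (ε / 2 / (2 * (K0 + 1))), by positivity, min_le_left _ _, ?_⟩
    rw [← le_div_iff₀ (by positivity)]
    exact min_le_right _ _
  obtain ⟨m, hm⟩ := exists_nat_ge (1 / g)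
  have hm1 : 1 ≤ g * m := by rwa [div_le_iff₀ hg, mul_comm] at hm
  have hm0 : 0 < m := Nat.pos_of_ne_zero fun e => by
    rw [e, Nat.cast_zero, mul_zero] at hm1
    linarith
  obtain ⟨C1, hC1, hτ⟩ := exists_tauLe hm0 (A := 8) (by norm_num)
  obtain ⟨C2, hC2, hL⟩ : ∃ C2 : ℝ, 1 ≤ C2 ∧ ∀ (T : ℝ) (J : ℕ), 1 ≤ T → (2 : ℝ) ^ J ≤ 2 * T ^ 2 →
      (J : ℝ) + 2 ≤ C2 * T ^ g :=
    ⟨3 + 4 / g, by have : 0 < 4 / g := by positivity
                   linarith, fun T J a b => one_log a hg b⟩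
  have hC12 : 1 ≤ C1 * C2 := one_le_mul_of_one_le_of_one_le hC1 hC2
  refine ⟨C2 * (C0 * 4 ^ (2 + ε / 2) * (30 * C1 * C2) ^ K0), (192 * C1 * C2) ^ 2, by positivity,
    fun T σ X Y N J K β t hT hN1 hN2 hJ1 hJ2 hσ hσ1 hP hb => ?_⟩
  have hT4 : 4 ≤ T := by nlinarith
  have hT1 : 1 ≤ T := by linarith
  have hT0 : 0 < T := by linarith
  have hNr : (1 : ℝ) ≤ N := (Real.one_le_rpow hT1 hδ.le).trans hN1
  have hN : 1 ≤ N := by exact_mod_cast hNr
  have hJ : 1 ≤ J := Nat.pos_of_ne_zero fun e => by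
    rw [e, pow_zero] at hJ1
    nlinarith
  have hY1 : 1 ≤ T ^ g := Real.one_le_rpow hT1 hg.le
  have hYm : T ≤ (T ^ g) ^ m := by
    rw [← Real.rpow_natCast, ← Real.rpow_mul hT0.le]
    exact Real.self_le_rpow_of_one_le hT1 hm1
  have hY4 : (T ^ g) ^ 4 ≤ T := by
    rw [← Real.rpow_natCast, ← Real.rpow_mul hT0.le]
    exact Real.rpow_le_self_of_one_le hT1 (by push_cast; linarith)
  have hYe : (T ^ g) ^ (2 * (K0 + 1)) ≤ T ^ (ε / 2) := by
    rw [← Real.rpow_mul hT0.le]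
    exact Real.rpow_le_rpow_of_exponent_le hT1 hg2
  have hτ' := hτ _ hY1
  have hG := hL T J hT1 hJ2
  generalize T ^ g = Z at hY1 hYm hY4 hYe hτ' hG
  have hZ : 0 < Z := by linarith
  have hN4 : (N : ℝ) ≤ 4 * T := by nlinarith
  have hB : 0 < C1 * Z := by positivity
  have ha : ∀ n ∈ Icc N (2 * N), ‖one_a X Y N n‖ ≤ C1 * Z := fun n hn => by
    unfold one_a
    split_ifs
    · rw [norm_zero]
      exact hB.le
    · have hn' := mem_Icc.1 hn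
      have h2 : (n : ℝ) ≤ 2 * N := by exact_mod_cast hn'.2
      rw [Complex.norm_real, Real.norm_eq_abs]
      exact (abs_co X Y n).trans (hτ' n (by omega) (by linarith))
  have hs : 48 * (C1 * Z) * N * (C2 * Z) ≤ T ^ 2 := by
    have h1 : 192 * C1 * C2 * Z ^ 2 ≤ T := by
      refine (pow_le_pow_iff_left₀ (by positivity) hT0.le two_ne_zero).1 ?_
      calc _ = (192 * C1 * C2) ^ 2 * Z ^ 4 := by ring
        _ ≤ T * T := mul_le_mul hT hY4 (by positivity) hT0.le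
        _ = _ := by ring
    calc _ = 48 * C1 * C2 * Z ^ 2 * N := by ring
      _ ≤ 48 * C1 * C2 * Z ^ 2 * (4 * T) := by gcongr
      _ = 192 * C1 * C2 * Z ^ 2 * T := by ring
      _ ≤ T * T := by gcongr
      _ = _ := by ring
  have hη : 1 ≤ 30 * (C1 * Z) * (C2 * Z) := by
    have : 1 ≤ Z * Z := one_le_mul_of_one_le_of_one_le hY1 hY1
    have : 1 ≤ C1 * C2 * (Z * Z) := one_le_mul_of_one_le_of_one_le hC12 this
    nlinarith
  have hA : 4 * T ≤ (N : ℝ) ^ (2 / δ) := by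
    have h1 : (T ^ δ) ^ (2 / δ) ≤ (N : ℝ) ^ (2 / δ) :=
      Real.rpow_le_rpow (by positivity) hN1 (by positivity)
    rw [← Real.rpow_mul hT0.le, mul_div_cancel₀ _ hδ.ne', Real.rpow_two] at h1
    nlinarith
  have hpt := fun k (hk : k ∈ K) => one_pt hN hJ hB ha (by linarith) (hP k hk).1
    (hP k hk).2.1 hG hJ1 hs (hb k hk)
  choose! f hf1 hf2 using hpt
  have hcl : ∀ j ∈ range J, ((K.filter fun k => f k = j).card : ℝ) ≤
      C0 * (4 * T) ^ (2 - 2 * σ + ε / 2) / (1 / (30 * (C1 * Z) * (C2 * Z))) ^ K0 := fun j _ => by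
    refine hE N (4 * T) σ _ (fun n => if n ∈ Icc N (2 * N) then
      one_a X Y N n * ((Real.log (n / N) ^ j : ℝ) : ℂ) / ((C1 * Z : ℝ) : ℂ) else 0) _ hN hN2 hA hσ hσ1
      (by positivity) ((div_le_one (by positivity)).2 hη) (fun n => ?_) fun k hk => ?_
    · split_ifs with hn
      · rw [norm_div, norm_mul, Complex.norm_real, Complex.norm_real, Real.norm_of_nonneg hB.le,
          div_le_one hB, Real.norm_eq_abs]
        exact (mul_le_of_le_one_right (norm_nonneg _) (abs_log_pow hN hn j)).trans (ha n hn)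
      · simp
    · obtain ⟨hk, e⟩ := mem_filter.1 hk
      obtain ⟨-, -, p1, p2, p3⟩ := hP k hk
      have q1 : (0 : ℤ) ≤ k := p1 ▸ Int.floor_nonneg.2 (by linarith)
      have q2 : (k : ℝ) ≤ t k := by
        have := Int.floor_le (t k)
        rwa [p1] at this
      refine ⟨by exact_mod_cast q1, by linarith, ?_⟩
      have q3 := hf2 k hk
      rw [e, p1] at q3
      refine q3.trans_eq ?_
      rw [← Real.norm_of_nonneg hB.le, ← Complex.norm_real, ← norm_div, sum_div,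
        Complex.norm_real, Real.norm_of_nonneg hB.le]
      exact congrArg _ (sum_congr rfl fun n hn => by rw [if_pos hn]; ring)
  have hsum : (K.card : ℝ) ≤
      J * (C0 * (4 * T) ^ (2 - 2 * σ + ε / 2) / (1 / (30 * (C1 * Z) * (C2 * Z))) ^ K0) := by
    rw [card_eq_sum_card_fiberwise (f := f) (t := range J) fun k hk => mem_range.2 (hf1 k hk)]
    push_cast
    refine (sum_le_card_nsmul _ _ _ hcl).trans_eq ?_
    rw [card_range, nsmul_eq_mul]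
  have e1 : (4 * T) ^ (2 - 2 * σ + ε / 2) ≤ 4 ^ (2 + ε / 2) * T ^ (2 - 2 * σ + ε / 2) := by
    rw [Real.mul_rpow (by norm_num) hT0.le]
    exact mul_le_mul_of_nonneg_right
      (Real.rpow_le_rpow_of_exponent_le (by norm_num) (by linarith)) (by positivity)
  have e2 : (30 * (C1 * Z) * (C2 * Z)) ^ K0 = (30 * C1 * C2) ^ K0 * Z ^ (2 * K0) := by
    rw [Real.rpow_mul hZ.le, Real.rpow_two, ← Real.mul_rpow (by positivity) (by positivity)]
    congr 1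
    ring
  have e3 : Z * Z ^ (2 * K0) ≤ T ^ (ε / 2) := by
    refine le_trans ?_ hYe
    rw [mul_comm, ← Real.rpow_add_one hZ.ne']
    exact Real.rpow_le_rpow_of_exponent_le hY1 (by linarith)
  have e4 : T ^ (2 - 2 * σ + ε) = T ^ (2 - 2 * σ + ε / 2) * T ^ (ε / 2) := by
    rw [← Real.rpow_add hT0]
    congr 1
    ring
  rw [Real.div_rpow zero_le_one (by positivity), Real.one_rpow, div_div_eq_mul_div, div_one,
    e2] at hsum
  calc (K.card : ℝ) ≤ _ := hsum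
    _ ≤ (C2 * Z) * (C0 * (4 ^ (2 + ε / 2) * T ^ (2 - 2 * σ + ε / 2)) *
          ((30 * C1 * C2) ^ K0 * Z ^ (2 * K0))) := by
        gcongr
        linarith
    _ = C2 * (C0 * 4 ^ (2 + ε / 2) * (30 * C1 * C2) ^ K0) *
          (T ^ (2 - 2 * σ + ε / 2) * (Z * Z ^ (2 * K0))) := by ring
    _ ≤ _ := by
        rw [e4]
        gcongr

end Pool.Agent.Lib.MP_ecd12e_nt.ZD
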