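import Pool.Agent.Lib.MP_ecd12e_nt.ZD.Defs
import Pool.Agent.Lib.MP_ecd12e_nt.Sch.Decay

/-! Removing the real part with a Gaussian. -/

namespace Pool.Agent.Lib.MP_ecd12e_nt.ZD

open Finset Real MeasureTheory
open Pool.Agent.Lib.MP_ecd12e_nt.Bar (ei)
open Pool.Agent.Lib.MP_ecd12e_nt.Sch (Sm gg)

theorem gau_cut (n : ℕ) : ContDiff ℝ n cut :=
  Real.smoothTransition.contDiff.comp ((contDiff_const.sub contDiff_id).mul contDiff_const)

theorem sm_psi : Sm psi := by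
  refine ⟨fun n => (gau_cut n).sub ((gau_cut n).comp (contDiff_const.mul contDiff_id)),
    fun u hu => ?_⟩
  unfold psi
  rcases hu with hu | hu
  · rw [cut_one (by linarith), cut_one (by linarith), sub_self]
  · rw [cut_zero (by linarith), cut_zero (by linarith), sub_self]

/- As `Sm.div`: away from `u ≤ 0` the factor is smooth, below `3 / 4` the product vanishes. -/
theorem sm_psig : Sm psig := by
  refine ⟨fun n => contDiff_iff_contDiffAt.2 fun u => ?_, fun u hu => ?_⟩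
  · by_cases hu : u = 0
    · refine (contDiffAt_const (c := (0 : ℝ))).congr_of_eventuallyEq ?_
      filter_upwards [Sch.decay_ev sm_psi (u := u) (Or.inl (by rw [hu]; norm_num))] with v hv
      rw [psig, hv, zero_mul]
    · exact (sm_psi.smooth n).contDiffAt.mul
        (((Real.contDiffAt_log.2 hu).pow 2).div_const 2).exp
  · rw [psig, sm_psi.supp u hu, zero_mul]

theorem norm_gg_le {w : ℝ → ℝ} (h : Sm w) :
    ∃ C : ℝ, 1 ≤ C ∧ ∀ (N : ℕ) (t : ℝ), ‖gg w N t‖ ≤ C * N := by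
  obtain ⟨C, hC, h1⟩ := h.bdd
  refine ⟨3 * C + 1, by linarith, fun N t => ?_⟩
  have h2 : ‖gg w N t‖ ≤ ∑ _n ∈ range (3 * N), C := by
    refine (norm_sum_le _ _).trans (sum_le_sum fun n _ => ?_)
    rw [norm_mul, Bar.norm_ei, mul_one, Complex.norm_real, Real.norm_eq_abs]
    exact h1 _
  rw [sum_const, card_range, nsmul_eq_mul] at h2
  push_cast at h2
  have h3 : (0 : ℝ) ≤ N := Nat.cast_nonneg N
  nlinarith

theorem gau_eq (y v : ℝ) : ((Real.exp (-v ^ 2 / 2) : ℝ) : ℂ) * ei (y * v) =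
    Complex.exp (Complex.I * y * v) * Complex.exp (-(1 / 2 : ℂ) * (v : ℂ) ^ 2) := by
  unfold Bar.ei
  rw [mul_comm]
  push_cast
  congr 2 <;> ring

theorem gau_int (y : ℝ) :
    Integrable fun v : ℝ => ((Real.exp (-v ^ 2 / 2) : ℝ) : ℂ) * ei (y * v) := by
  have h := integrable_cexp_quadratic (b := 1 / 2) (by norm_num) (Complex.I * y) 0
  refine h.congr (ae_of_all _ fun v => ?_)
  simp only [gau_eq]
  rw [← Complex.exp_add]
  congr 1
  ring

theorem gau_ft (y : ℝ) : ∫ v : ℝ, ((Real.exp (-v ^ 2 / 2) : ℝ) : ℂ) * ei (y * v) =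
    ((√(2 * π) * Real.exp (-y ^ 2 / 2) : ℝ) : ℂ) := by
  simp only [gau_eq]
  rw [fourierIntegral_gaussian (by norm_num), Real.sqrt_eq_rpow, Complex.ofReal_mul,
    Complex.ofReal_cpow (by positivity)]
  push_cast
  congr 2 <;> ring

theorem gau_term {N : ℕ} (hN : 1 ≤ N) (β t : ℝ) (n : ℕ) :
    (psig (n / N) : ℂ) * ei (t * Real.log (n / N)) *
      ((√(2 * π) * Real.exp (-(β + Real.log (n / N)) ^ 2 / 2) : ℝ) : ℂ) =
    ((√(2 * π) * Real.exp (-β ^ 2 / 2) * (N : ℝ) ^ β : ℝ) : ℂ) * ei (-(t * Real.log N)) *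
      ((psi (n / N) : ℂ) * pw β t n) := by
  rcases Nat.eq_zero_or_pos n with rfl | hn
  · have h0 : psi (((0 : ℕ) : ℝ) / N) = 0 := sm_psi.supp _ (Or.inl (by norm_num))
    rw [psig, h0]
    simp
  · have h1 : (0 : ℝ) < n := by exact_mod_cast hn
    have h2 : (0 : ℝ) < N := by exact_mod_cast hN
    have h3 : Real.exp (Real.log (n / N) ^ 2 / 2) *
        Real.exp (-(β + Real.log (n / N)) ^ 2 / 2) =
        Real.exp (-β ^ 2 / 2) * (N : ℝ) ^ β * (n : ℝ) ^ (-β) := by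
      rw [Real.rpow_def_of_pos h1, Real.rpow_def_of_pos h2, Real.log_div h1.ne' h2.ne',
        ← Real.exp_add, ← Real.exp_add, ← Real.exp_add]
      congr 1
      ring
    have h4 : ei (t * Real.log (n / N)) = ei (-(t * Real.log N)) * ei (t * Real.log n) := by
      rw [← Bar.ei_add, Real.log_div h1.ne' h2.ne']
      congr 1
      ring
    have h5 := congrArg (fun x : ℝ => (x : ℂ)) h3
    simp only [Complex.ofReal_mul] at h5
    rw [psig, pw, h4]
    simp only [Complex.ofReal_mul]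
    linear_combination (psi (n / N) : ℂ) * ei (-(t * Real.log N)) * ei (t * Real.log n) *
      (√(2 * π) : ℝ) * h5

theorem gau_main {N : ℕ} (hN : 1 ≤ N) (β t : ℝ) :
    ∫ v : ℝ, ((Real.exp (-v ^ 2 / 2) : ℝ) : ℂ) * ei (β * v) * gg psig N (t + v) =
    ((√(2 * π) * Real.exp (-β ^ 2 / 2) * (N : ℝ) ^ β : ℝ) : ℂ) * ei (-(t * Real.log N)) *
      sm N β t := by
  have h1 : ∀ v : ℝ, ((Real.exp (-v ^ 2 / 2) : ℝ) : ℂ) * ei (β * v) * gg psig N (t + v) =
      ∑ n ∈ range (3 * N), (psig (n / N) : ℂ) * ei (t * Real.log (n / N)) *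
        (((Real.exp (-v ^ 2 / 2) : ℝ) : ℂ) * ei ((β + Real.log (n / N)) * v)) := by
    intro v
    unfold Sch.gg
    rw [mul_sum]
    refine sum_congr rfl fun n _ => ?_
    rw [add_mul t v, add_mul β, Bar.ei_add, Bar.ei_add, mul_comm v]
    ring
  simp only [h1]
  rw [integral_finsetSum _ fun n _ => (gau_int _).const_mul _, sm, mul_sum]
  refine sum_congr rfl fun n _ => ?_
  rw [integral_const_mul, gau_ft, gau_term hN]

/- `fourierIntegral_gaussian` with `b = 1 / 2`: `∫ v, cexp (i (x + β) v - v ^ 2 / 2) =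
√(2 π) exp (-(x + β) ^ 2 / 2)`. With `x = log (n / N)` this gives
`N ^ β * sm N β t = ei (t log N) * exp (β ^ 2 / 2) / √(2 π) *
∫ v, exp (-v ^ 2 / 2) ei (β v) gg psig N (t + v)` (the term `n = 0` vanishes, `psi 0 = 0`).
If the claim fails for all `v`, the norm is at most
`exp (1 / 2) / √(2 π) * (V / 10) * ∫ exp (-v ^ 2 / 4) = exp (1 / 2) √2 V / 10 < V`. -/
theorem gau {N : ℕ} (hN : 1 ≤ N) {β V : ℝ} (h0 : 0 ≤ β) (h1 : β ≤ 1) (hV : 0 < V) (t : ℝ)
    (h : V ≤ (N : ℝ) ^ β * ‖sm N β t‖) :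
    ∃ v : ℝ, V * Real.exp (v ^ 2 / 4) ≤ 10 * ‖gg psig N (t + v)‖ := by
  by_contra hc
  push Not at hc
  have h2 : ‖∫ v : ℝ, ((Real.exp (-v ^ 2 / 2) : ℝ) : ℂ) * ei (β * v) * gg psig N (t + v)‖ ≤
      ∫ v : ℝ, V / 10 * Real.exp (-(1 / 4) * v ^ 2) := by
    refine norm_integral_le_of_norm_le
      ((integrable_exp_neg_mul_sq (b := 1 / 4) (by norm_num)).const_mul _)
      (ae_of_all _ fun v => ?_)
    rw [norm_mul, norm_mul, Bar.norm_ei, mul_one, Complex.norm_real,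
      Real.norm_of_nonneg (Real.exp_pos _).le]
    have h3 : Real.exp (-(1 / 4) * v ^ 2) = Real.exp (-v ^ 2 / 2) * Real.exp (v ^ 2 / 4) := by
      rw [← Real.exp_add]
      congr 1
      ring
    have h4 := mul_le_mul_of_nonneg_left (hc v).le (Real.exp_pos (-v ^ 2 / 2)).le
    rw [h3]
    linarith
  rw [gau_main hN, integral_const_mul, integral_gaussian, norm_mul, norm_mul, Bar.norm_ei, mul_one,
    Complex.norm_real, Real.norm_of_nonneg (by positivity)] at h2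
  have h3 : 1 / 2 ≤ Real.exp (-β ^ 2 / 2) := by
    have := Real.add_one_le_exp (-β ^ 2 / 2)
    nlinarith
  have h4 : 0 < √(2 * π) := Real.sqrt_pos.2 (by positivity)
  have h5 : √(π / (1 / 4)) ≤ 2 * √(2 * π) := by
    rw [Real.sqrt_le_left (by positivity), mul_pow, Real.sq_sqrt (by positivity)]
    linarith [Real.pi_pos]
  have h6 : √(2 * π) * (1 / 2) * V ≤
      √(2 * π) * Real.exp (-β ^ 2 / 2) * ((N : ℝ) ^ β * ‖sm N β t‖) := by gcongr
  have h7 : V / 10 * √(π / (1 / 4)) ≤ V / 10 * (2 * √(2 * π)) := by gcongr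
  have h8 : 0 < √(2 * π) * V := by positivity
  nlinarith

end Pool.Agent.Lib.MP_ecd12e_nt.ZD
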