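import Pool.Agent.Lib.MP_ecd12e_nt.ZD.Four
import Pool.Agent.Lib.MP_ecd12e_nt.ZD.Gau

/-! Points at which a smooth block is large. -/

namespace Pool.Agent.Lib.MP_ecd12e_nt.ZD

open Finset Real
open Pool.Agent.Lib.MP_ecd12e_nt.Bar (ei)
open Pool.Agent.Lib.MP_ecd12e_nt.Sch (Sm gg)

/-- A sum over points whose integer parts are shifted by a bounded amount. -/
lemma two_shift (f : ℝ → ℝ) (P : ℝ → Prop) {B : ℝ}
    (h : ∀ (K : Finset ℤ) (u : ℤ → ℝ), (∀ k ∈ K, ⌊u k⌋ = k ∧ P (u k)) → ∑ k ∈ K, f (u k) ≤ B)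
    (K : Finset ℤ) (u : ℤ → ℝ) (D : ℕ) (hP : ∀ k ∈ K, P (u k))
    (hd : ∀ k ∈ K, ⌊u k⌋ - k ∈ Icc (-(D : ℤ)) D) :
    ∑ k ∈ K, f (u k) ≤ (2 * D + 1) * B := by
  classical
  rw [← sum_fiberwise_of_maps_to hd]
  have hc : ((Icc (-(D : ℤ)) D).card : ℝ) = 2 * D + 1 := by
    rw [Int.card_Icc]
    have : ((D : ℤ) + 1 - -(D : ℤ)).toNat = 2 * D + 1 := by omega
    rw [this]; push_cast; ring
  rw [← hc, ← nsmul_eq_mul]
  refine sum_le_card_nsmul _ _ _ fun d _ => ?_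
  have key := h ((K.filter fun k => ⌊u k⌋ - k = d).image (· + d)) (fun k => u (k - d)) (by
    intro k' hk'
    obtain ⟨k, hk, rfl⟩ := mem_image.1 hk'
    obtain ⟨hk1, hk2⟩ := mem_filter.1 hk
    simp only [add_sub_cancel_right]
    exact ⟨by omega, hP k hk1⟩)
  rw [sum_image (fun a _ b _ hab => by simpa using hab)] at key
  simpa only [add_sub_cancel_right] using key

lemma two_abs {v A T : ℝ} (hA : 0 < A) (hT : 0 < T) (h : Real.exp (v ^ 2 / 4) ≤ A * T ^ 3) :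
    |v| ≤ 1 + Real.log A + 3 * Real.log T := by
  have h1 : v ^ 2 / 4 ≤ Real.log (A * T ^ 3) := (Real.le_log_iff_exp_le (by positivity)).2 h
  rw [Real.log_mul hA.ne' (by positivity), Real.log_pow] at h1
  have h2 : |v| - 1 ≤ v ^ 2 / 4 := by nlinarith [sq_nonneg (|v| - 2), sq_abs v]
  push_cast at h1
  linarith

lemma two_log {T : ℝ} (hT : 0 < T) : Real.log T ≤ T / 48 + 46 := by
  have h1 : Real.log T = Real.log (T / 48) + Real.log 48 := by
    rw [Real.log_div hT.ne' (by norm_num)]; ring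
  have h2 := Real.log_le_sub_one_of_pos (show 0 < T / 48 by positivity)
  have h3 := Real.log_le_sub_one_of_pos (show (0 : ℝ) < 48 by norm_num)
  linarith

/- `gau` with `V = η N ^ σ ≤ N ^ β ‖sm‖` gives `v k`; `norm_gg_le` gives
`exp (v ^ 2 / 4) ≤ 10 C N / η ≤ 20 C T ^ 3`, so `|v k| ≤ Λ ≤ T / 4` with `Λ ≤ T ^ (ε / 2)` for
large `T`. Split `K` by `d = ⌊t k + v k⌋ - k ∈ [-Λ - 1, Λ + 1]`; on a class apply `four` to
`K.image (· + d)` and `u k' = t (k' - d) + v (k' - d)`. -/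
theorem class_two {ε : ℝ} (hε : 0 < ε) :
    ∃ C T1 : ℝ, 0 ≤ C ∧ ∀ (T σ η : ℝ) (N : ℕ) (K : Finset ℤ) (β t : ℤ → ℝ), T1 ≤ T → 1 ≤ N →
      (N : ℝ) ≤ 2 * T ^ 2 → 0 ≤ σ → 1 / T ≤ η → Pts K β t σ T →
      (∀ k ∈ K, η ≤ ‖sm N (β k) (t k)‖) →
      K.card * (η * (N : ℝ) ^ σ) ^ 4 ≤ C * T ^ ε * (N ^ 2 * T + T ^ 2) := by
  have hε2 : 0 < ε / 2 := by positivity
  obtain ⟨C4, T4, hC4, h4⟩ := four sm_psig hε2
  obtain ⟨Cg, hCg, hg⟩ := norm_gg_le sm_psig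
  have hlg : 0 ≤ Real.log (20 * Cg) := Real.log_nonneg (by linarith)
  refine ⟨10000 * C4 * (7 + 2 * Real.log (20 * Cg) + 6 / (ε / 2)),
    max T4 (6 * (139 + Real.log (20 * Cg))), by positivity, ?_⟩
  intro T σ η N K β t hT hN hNT hσ hη hP hbig
  have hT4 : T4 ≤ T := (le_max_left _ _).trans hT
  have hT6 : 6 * (139 + Real.log (20 * Cg)) ≤ T := (le_max_right _ _).trans hT
  have hT1 : 1 ≤ T := by linarith
  have hT0 : 0 < T := by linarith
  have hN1 : (1 : ℝ) ≤ N := by exact_mod_cast hN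
  have hη0 : 0 < η := lt_of_lt_of_le (by positivity) hη
  have hNσ : 1 ≤ (N : ℝ) ^ σ := Real.one_le_rpow hN1 hσ
  set V := η * (N : ℝ) ^ σ with hV
  have hV0 : 0 < V := by positivity
  have hVT : 1 ≤ V * T := by
    have h1 : 1 ≤ η * T := by rwa [div_le_iff₀ hT0] at hη
    have h2 : η ≤ V := le_mul_of_one_le_right hη0.le hNσ
    nlinarith
  have hex : ∀ k ∈ K, ∃ v : ℝ, V * Real.exp (v ^ 2 / 4) ≤ 10 * ‖gg psig N (t k + v)‖ := by
    intro k hk
    obtain ⟨a1, a2, -⟩ := hP k hk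
    refine gau hN (hσ.trans a1) a2 hV0 (t k) ?_
    rw [hV, mul_comm]
    exact mul_le_mul (Real.rpow_le_rpow_of_exponent_le hN1 a1) (hbig k hk) hη0.le (by positivity)
  choose! v hv using hex
  set Λ := 1 + Real.log (20 * Cg) + 3 * Real.log T with hΛ
  have hlT : 0 ≤ Real.log T := Real.log_nonneg hT1
  have hΛ0 : 0 ≤ Λ := by positivity
  have hvΛ : ∀ k ∈ K, |v k| ≤ Λ := by
    intro k hk
    refine two_abs (by positivity) hT0 ?_
    have h1 := hv k hk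
    have h2 := hg N (t k + v k)
    have h3 : 0 < Real.exp (v k ^ 2 / 4) := Real.exp_pos _
    have h5 : Cg * N ≤ Cg * (2 * T ^ 2) := mul_le_mul_of_nonneg_left hNT (by linarith)
    calc Real.exp (v k ^ 2 / 4) ≤ Real.exp (v k ^ 2 / 4) * (V * T) :=
          le_mul_of_one_le_right h3.le hVT
      _ = V * Real.exp (v k ^ 2 / 4) * T := by ring
      _ ≤ 10 * (Cg * (2 * T ^ 2)) * T := by
          refine mul_le_mul_of_nonneg_right ?_ hT0.le
          linarith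
      _ = 20 * Cg * T ^ 3 := by ring
  have hΛT : Λ ≤ T / 4 := by
    have := two_log hT0
    linarith
  have hB : 0 ≤ C4 * T ^ (ε / 2) * ((N : ℝ) ^ 2 * T + T ^ 2) := by positivity
  have key := two_shift (fun x => ‖gg psig N x‖ ^ 4) (fun x => T / 4 ≤ x ∧ x ≤ 2 * T)
    (fun K' u' hu => h4 T N K' u' hT4 hN hNT hu) K (fun k => t k + v k) (⌈Λ⌉₊ + 1)
    (fun k hk => by
      obtain ⟨-, -, -, a4, a5⟩ := hP k hk
      have := abs_le.1 (hvΛ k hk)
      constructor <;> linarith [this.1, this.2])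
    (fun k hk => by
      obtain ⟨-, -, a3, -, -⟩ := hP k hk
      have b := abs_le.1 (hvΛ k hk)
      have c1 := Int.floor_le (t k + v k)
      have c2 := Int.lt_floor_add_one (t k + v k)
      have c3 := Int.floor_le (t k)
      have c4 := Int.lt_floor_add_one (t k)
      have c5 := Nat.le_ceil Λ
      rw [a3] at c3 c4
      rw [mem_Icc]
      constructor
      · have : (-((⌈Λ⌉₊ + 1 : ℕ) : ℤ) : ℝ) ≤ ((⌊t k + v k⌋ - k : ℤ) : ℝ) := by
          push_cast; linarith [b.1]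
        exact_mod_cast this
      · have : ((⌊t k + v k⌋ - k : ℤ) : ℝ) ≤ (((⌈Λ⌉₊ + 1 : ℕ) : ℤ) : ℝ) := by
          push_cast; linarith [b.2]
        exact_mod_cast this)
  have hsum : K.card * V ^ 4 ≤ 10000 * ∑ k ∈ K, ‖gg psig N (t k + v k)‖ ^ 4 := by
    rw [mul_sum, ← nsmul_eq_mul]
    refine card_nsmul_le_sum _ _ _ fun k hk => ?_
    have h1 : V ≤ 10 * ‖gg psig N (t k + v k)‖ :=
      (le_mul_of_one_le_right hV0.le (Real.one_le_exp (by positivity))).trans (hv k hk)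
    calc V ^ 4 ≤ (10 * ‖gg psig N (t k + v k)‖) ^ 4 := pow_le_pow_left₀ hV0.le h1 4
      _ = _ := by ring
  have hTe : 1 ≤ T ^ (ε / 2) := Real.one_le_rpow hT1 hε2.le
  have hD : (2 * ((⌈Λ⌉₊ + 1 : ℕ) : ℝ) + 1) ≤
      (7 + 2 * Real.log (20 * Cg) + 6 / (ε / 2)) * T ^ (ε / 2) := by
    have c1 := (Nat.ceil_lt_add_one hΛ0).le
    have c2 := Real.log_le_rpow_div hT0.le hε2
    have c3 : (7 + 2 * Real.log (20 * Cg)) * 1 ≤ (7 + 2 * Real.log (20 * Cg)) * T ^ (ε / 2) :=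
      mul_le_mul_of_nonneg_left hTe (by positivity)
    have c4 : 6 / (ε / 2) * T ^ (ε / 2) = 6 * (T ^ (ε / 2) / (ε / 2)) := by ring
    push_cast
    rw [add_mul, c4]
    linarith
  have hTT : T ^ ε = T ^ (ε / 2) * T ^ (ε / 2) := by
    rw [← Real.rpow_add hT0]; congr 1; ring
  calc K.card * V ^ 4 ≤ 10000 * ∑ k ∈ K, ‖gg psig N (t k + v k)‖ ^ 4 := hsum
    _ ≤ 10000 * (((7 + 2 * Real.log (20 * Cg) + 6 / (ε / 2)) * T ^ (ε / 2)) *
          (C4 * T ^ (ε / 2) * ((N : ℝ) ^ 2 * T + T ^ 2))) := by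
        refine mul_le_mul_of_nonneg_left (key.trans ?_) (by norm_num)
        exact mul_le_mul_of_nonneg_right hD hB
    _ = _ := by rw [hTT]; ring

end Pool.Agent.Lib.MP_ecd12e_nt.ZD
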