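import Pool.Agent.Lib.MP_ecd12e_nt.ZD.Det
import Pool.Agent.Lib.MP_ecd12e_nt.ZD.One
import Pool.Agent.Lib.MP_ecd12e_nt.ZD.Two

/-! Zeros in a dyadic range. -/

namespace Pool.Agent.Lib.MP_ecd12e_nt.ZD

open Finset Real Filter
open Pool.Agent.Lib.MP_ecd12e_nt.Bar (ei)

lemma core_pow {x : ℝ} (hx : 1 ≤ x) : ∃ j : ℕ, (2 : ℝ) ^ j ≤ x ∧ x < 2 ^ (j + 1) :=
  exists_nat_pow_near hx one_lt_two

lemma core_ev {a b : ℝ} (h : a < b) (c : ℝ) : ∀ᶠ T : ℝ in atTop, c * T ^ a ≤ T ^ b := by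
  have h1 := (tendsto_rpow_atTop (sub_pos.2 h)).eventually_ge_atTop c
  filter_upwards [h1, eventually_gt_atTop 0] with T h2 h3
  calc c * T ^ a ≤ T ^ (b - a) * T ^ a := mul_le_mul_of_nonneg_right h2 (by positivity)
    _ = T ^ b := by rw [← Real.rpow_add h3]; ring_nf

lemma core_log {δ : ℝ} (hδ : 0 < δ) : ∀ᶠ T : ℝ in atTop, ∀ J : ℕ, (2 : ℝ) ^ J ≤ 2 * T ^ 2 →
    (J : ℝ) + 2 ≤ T ^ δ := by
  have h1 := (tendsto_rpow_atTop (half_pos hδ)).eventually_ge_atTop (3 + 8 / δ)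
  filter_upwards [h1, eventually_ge_atTop 1] with T h2 h3 J hJ
  have hT : 0 < T := by linarith
  have h4 : (J : ℝ) * Real.log 2 ≤ Real.log 2 + 2 * Real.log T := by
    have := Real.log_le_log (by positivity) hJ
    rwa [Real.log_pow, Real.log_mul two_ne_zero (by positivity), Real.log_pow, Nat.cast_ofNat] at this
  have h5 := Real.log_two_gt_d9
  have h6 : 0 ≤ Real.log T := Real.log_nonneg h3
  have h7 : (J : ℝ) ≤ 1 + 4 * Real.log T := by nlinarith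
  have h8 : Real.log T ≤ T ^ (δ / 2) / (δ / 2) := Real.log_le_rpow_div hT.le (half_pos hδ)
  have h9 : (1 : ℝ) ≤ T ^ (δ / 2) := Real.one_le_rpow h3 (half_pos hδ).le
  have e : T ^ δ = T ^ (δ / 2) * T ^ (δ / 2) := by rw [← Real.rpow_add hT]; ring_nf
  have e2 : 4 * (T ^ (δ / 2) / (δ / 2)) = 8 / δ * T ^ (δ / 2) := by field_simp; norm_num
  rw [e]
  nlinarith

lemma core_two {T σ X N : ℝ} (hT : 1 ≤ T) (hX : 1 ≤ X) (h1 : 1 / 2 ≤ σ) (h2 : σ ≤ 1)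
    (hN : √T ≤ X * N) (hN1 : 1 ≤ N) :
    N ^ 2 * T + T ^ 2 ≤ 2 * X ^ 4 * T ^ (2 - 2 * σ) * (N ^ σ) ^ 4 := by
  have hT0 : 0 < T := by linarith
  have hX0 : 0 < X := by linarith
  have hN0 : 0 < N := by linarith
  have h3 : T ≤ (X * N) ^ 2 := by
    have := pow_le_pow_left₀ (Real.sqrt_nonneg T) hN 2
    rwa [Real.sq_sqrt hT0.le] at this
  obtain ⟨n, rfl⟩ : ∃ n, N = Real.exp n := ⟨Real.log N, (Real.exp_log hN0).symm⟩
  obtain ⟨t, rfl⟩ : ∃ t, T = Real.exp t := ⟨Real.log T, (Real.exp_log hT0).symm⟩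
  obtain ⟨x, rfl⟩ : ∃ x, X = Real.exp x := ⟨Real.log X, (Real.exp_log hX0).symm⟩
  have hn : 0 ≤ n := Real.one_le_exp_iff.1 hN1
  have ht : 0 ≤ t := Real.one_le_exp_iff.1 hT
  have hx : 0 ≤ x := Real.one_le_exp_iff.1 hX
  simp only [← Real.exp_nat_mul, ← Real.exp_mul, ← Real.exp_add, Real.exp_le_exp,
    two_mul, add_mul] at h3 ⊢
  push_cast at h3 ⊢
  refine add_le_add (Real.exp_le_exp.2 ?_) (Real.exp_le_exp.2 ?_) <;> nlinarith

theorem core (h : Eta) {ε : ℝ} (hε : 0 < ε) :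
    ∃ C T1 : ℝ, 0 ≤ C ∧ ∀ (T σ : ℝ) (K : Finset ℤ) (β t : ℤ → ℝ), T1 ≤ T → 7 / 9 ≤ σ → σ ≤ 1 →
      Pts K β t σ T → (∀ k ∈ K, riemannZeta ((β k : ℂ) - (t k : ℝ) * Complex.I) = 0) →
      (K.card : ℝ) ≤ C * T ^ (2 - 2 * σ + ε) := by
  classical
  set δ : ℝ := min ε 1 / 20 with hδd
  have hδ : 0 < δ := by positivity
  have hδε : 20 * δ ≤ ε := by have := min_le_left ε 1; linarith
  have hδ1 : δ ≤ 1 / 20 := by have := min_le_right ε 1; linarith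
  obtain ⟨C1, T1, hC1, H1⟩ := class_one h hδ hδ
  obtain ⟨C2, T2, hC2, H2⟩ := class_two hδ
  obtain ⟨T0, hT0⟩ := eventually_atTop.1 ((core_log hδ).and ((core_ev (a := 2 * δ) (b := 1 / 2)
    (by linarith) 54).and ((eventually_ge_atTop 2).and ((eventually_ge_atTop T1).and
      (eventually_ge_atTop T2)))))
  refine ⟨C1 + 2 * 3 ^ 4 * 2 ^ 8 * C2, T0, by positivity, fun T σ K β t hT s1 s2 hP hz => ?_⟩
  obtain ⟨e1, e2, e3, e4, e5⟩ := hT0 T hT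
  have hT1 : (1 : ℝ) ≤ T := by linarith
  have hTp : 0 < T := by linarith
  set D : ℝ := T ^ δ with hD
  have hD1 : 1 ≤ D := Real.one_le_rpow hT1 hδ.le
  have hD2 : 54 * D ^ 2 ≤ √T := by
    rw [Real.sqrt_eq_rpow, hD, ← Real.rpow_natCast, ← Real.rpow_mul hTp.le]
    simpa [mul_comm] using e2
  have hs : √T ≤ T := Real.sqrt_le_iff.2 ⟨hTp.le, by nlinarith⟩
  set X : ℕ := ⌈D⌉₊ with hX
  have hX1 : D ≤ X := Nat.le_ceil D
  have hX2 : (X : ℝ) ≤ 2 * D := by have := Nat.ceil_lt_add_one (a := D) (by linarith); linarith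
  have hX3 : (1 : ℝ) ≤ X := hD1.trans hX1
  have hX4 : 1 ≤ X := by exact_mod_cast hX3
  have hXp : (0 : ℝ) < X := by linarith
  obtain ⟨j0, a1, a2⟩ := core_pow (x := √T / X) (by rw [le_div_iff₀ hXp]; nlinarith)
  rw [le_div_iff₀ hXp] at a1
  rw [div_lt_iff₀ hXp] at a2
  obtain ⟨J', b1, b2⟩ := core_pow (x := T ^ 2) (by nlinarith)
  set J : ℕ := J' + 1 with hJ
  have b3 : (2 : ℝ) ^ J ≤ 2 * T ^ 2 := by rw [hJ, pow_succ]; linarith
  have hJD := e1 J b3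
  have hp0 : (0 : ℝ) < 2 ^ j0 := by positivity
  have hXj : X ≤ 2 ^ j0 := by
    have : (X : ℝ) ≤ 2 ^ j0 := by
      rw [pow_succ] at a2
      by_contra hc
      push Not at hc
      nlinarith
    exact_mod_cast this
  have hj : j0 ≤ J := by
    have : (2 : ℝ) ^ j0 ≤ 2 ^ J := by nlinarith
    exact (pow_le_pow_iff_right₀ one_lt_two).1 this
  have hsm : 27 * X * T ^ (-(5 / 9) : ℝ) ≤ 1 := by
    have k1 : √T ≤ T ^ (5 / 9 : ℝ) := by
      rw [Real.sqrt_eq_rpow]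
      exact Real.rpow_le_rpow_of_exponent_le hT1 (by norm_num)
    rw [Real.rpow_neg hTp.le, ← div_eq_mul_inv, div_le_one (by positivity)]
    nlinarith
  set K1 : ℕ → Finset ℤ := fun i => K.filter fun k =>
    1 / (3 * ((J : ℝ) + 2)) ≤ ‖bl X (2 ^ j0) (2 ^ i * X) (β k) (t k)‖ with hK1
  set K2 : ℕ → Finset ℤ := fun j => K.filter fun k =>
    1 / (3 * X * ((J : ℝ) + 2)) ≤ ‖sm (2 ^ j) (β k) (t k)‖ with hK2
  have hcov : K ⊆ (range (j0 + 2)).biUnion K1 ∪ (Ioc j0 J).biUnion K2 := fun k hk => by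
    obtain ⟨p1, p2, -, p4, p5⟩ := hP k hk
    rcases detect (hz k hk) (s1.trans p1) p2 e3 p4 p5 b2.le b3 hX4 hXj hj hsm with
      ⟨i, hi, hb⟩ | ⟨j, hj1, hj2, hb⟩
    · exact mem_union_left _ (mem_biUnion.2 ⟨i, mem_range.2 hi, mem_filter.2 ⟨hk, hb⟩⟩)
    · exact mem_union_right _ (mem_biUnion.2 ⟨j, mem_Ioc.2 ⟨hj1, hj2⟩, mem_filter.2 ⟨hk, hb⟩⟩)
  set E : ℝ := T ^ (2 - 2 * σ) with hE
  have hE0 : 0 < E := by positivity
  have c1 : ∀ i ∈ range (j0 + 2), ((K1 i).card : ℝ) ≤ C1 * (E * D) := fun i hi => by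
    have hi' : i ≤ j0 + 1 := Nat.lt_succ_iff.1 (mem_range.1 hi)
    have k1 : (2 : ℝ) ^ i ≤ 2 ^ (j0 + 1) := pow_le_pow_right₀ one_le_two hi'
    have k2 : (1 : ℝ) ≤ 2 ^ i := one_le_pow₀ one_le_two
    have k3 : (2 : ℝ) ^ i * X ≤ 2 * √T := by rw [pow_succ] at k1; nlinarith
    have k4 := H1 T σ X (2 ^ j0) (2 ^ i * X) J (K1 i) β t e4 (by push_cast; nlinarith) (by
      push_cast
      have := pow_le_pow_left₀ (by positivity) k3 2
      rw [mul_pow 2, Real.sq_sqrt hTp.le] at this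
      linarith) b2.le b3 s1 s2 (fun k hk => hP k (mem_filter.1 hk).1)
      fun k hk => (mem_filter.1 hk).2
    rwa [Real.rpow_add hTp] at k4
  have c2 : ∀ j ∈ Ioc j0 J, ((K2 j).card : ℝ) ≤ 2 * 3 ^ 4 * 2 ^ 8 * C2 * (E * D ^ 13) :=
    fun j hj' => by
    obtain ⟨j1, j2⟩ := mem_Ioc.1 hj'
    have k1 : (2 : ℝ) ^ (j0 + 1) ≤ 2 ^ j := pow_le_pow_right₀ one_le_two j1
    have k2 : (2 : ℝ) ^ j ≤ 2 ^ J := pow_le_pow_right₀ one_le_two j2
    have k3 : (1 : ℝ) ≤ 2 ^ j := one_le_pow₀ one_le_two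
    have hJ0 : (0 : ℝ) < (J : ℝ) + 2 := by positivity
    have k5 : 3 * X * ((J : ℝ) + 2) ≤ 3 * (2 * D) * D := by gcongr
    have k4 := H2 T σ (1 / (3 * X * ((J : ℝ) + 2))) (2 ^ j) (K2 j) β t e5 Nat.one_le_two_pow
      (by push_cast; linarith) (by linarith)
      (one_div_le_one_div_of_le (by positivity) (by nlinarith))
      (fun k hk => hP k (mem_filter.1 hk).1) fun k hk => (mem_filter.1 hk).2
    push_cast at k4
    have k6 := core_two (σ := σ) (N := 2 ^ j) hT1 hX3 (by linarith) s2 (by nlinarith) k3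
    have k7 : (0 : ℝ) < (((2 : ℝ) ^ j) ^ σ) ^ 4 := by positivity
    rw [mul_pow, ← mul_assoc] at k4
    have k8 : ((K2 j).card : ℝ) * (1 / (3 * X * ((J : ℝ) + 2))) ^ 4 ≤ C2 * D * (2 * X ^ 4 * E) := by
      refine le_of_mul_le_mul_right (k4.trans ?_) k7
      calc C2 * D * (((2 : ℝ) ^ j) ^ 2 * T + T ^ 2)
          ≤ C2 * D * (2 * X ^ 4 * E * (((2 : ℝ) ^ j) ^ σ) ^ 4) := by gcongr
        _ = _ := by ring
    rw [one_div, inv_pow, ← div_eq_mul_inv, div_le_iff₀ (by positivity)] at k8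
    calc _ ≤ _ := k8
      _ ≤ C2 * D * (2 * (2 * D) ^ 4 * E) * (3 * (2 * D) * D) ^ 4 := by gcongr
      _ = _ := by ring
  have hj0 : ((j0 + 2 : ℕ) : ℝ) ≤ D := by
    have : (j0 : ℝ) ≤ J := by exact_mod_cast hj
    push_cast
    linarith
  have hJ1 : (((Ioc j0 J).card : ℕ) : ℝ) ≤ D := by
    have : (((Ioc j0 J).card : ℕ) : ℝ) ≤ J := by
      rw [Nat.card_Ioc]
      exact_mod_cast Nat.sub_le J j0
    linarith
  have hfin : E * D ^ 14 ≤ T ^ (2 - 2 * σ + ε) := by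
    rw [Real.rpow_add hTp, hD, ← Real.rpow_natCast, ← Real.rpow_mul hTp.le]
    refine mul_le_mul_of_nonneg_left (Real.rpow_le_rpow_of_exponent_le hT1 ?_) hE0.le
    push_cast
    linarith
  have hD14 : D ^ 2 ≤ D ^ 14 := pow_le_pow_right₀ hD1 (by norm_num)
  calc (K.card : ℝ) ≤ ((∑ i ∈ range (j0 + 2), (K1 i).card + ∑ j ∈ Ioc j0 J, (K2 j).card : ℕ) : ℝ) := by
        exact_mod_cast (card_le_card hcov).trans ((card_union_le _ _).trans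
          (add_le_add card_biUnion_le card_biUnion_le))
    _ ≤ (j0 + 2 : ℕ) * (C1 * (E * D)) +
          ((Ioc j0 J).card : ℕ) * (2 * 3 ^ 4 * 2 ^ 8 * C2 * (E * D ^ 13)) := by
        push_cast
        refine add_le_add ?_ ?_
        · simpa using sum_le_card_nsmul _ _ _ c1
        · simpa using sum_le_card_nsmul _ _ _ c2
    _ ≤ D * (C1 * (E * D)) + D * (2 * 3 ^ 4 * 2 ^ 8 * C2 * (E * D ^ 13)) := by gcongr
    _ = C1 * (E * D ^ 2) + 2 * 3 ^ 4 * 2 ^ 8 * C2 * (E * D ^ 14) := by ring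
    _ ≤ C1 * (E * D ^ 14) + 2 * 3 ^ 4 * 2 ^ 8 * C2 * (E * D ^ 14) := by gcongr
    _ = (C1 + 2 * 3 ^ 4 * 2 ^ 8 * C2) * (E * D ^ 14) := by ring
    _ ≤ _ := by gcongr

end Pool.Agent.Lib.MP_ecd12e_nt.ZD
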