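import Pool.Agent.Lib.MP_ecd12e_nt.ZD.Defs
import Pool.Agent.Lib.MP_778b46_nt.GX.Z4a

/-! The truncated zeta sum at a zero, sharp and smooth, and its dyadic pieces. -/

namespace Pool.Agent.Lib.MP_ecd12e_nt.ZD

open Finset Real
open Pool.Agent.Lib.MP_ecd12e_nt.Bar (ei)

lemma cut_pw (β t : ℝ) {n : ℕ} (hn : 0 < n) :
    (n : ℂ) ^ (-((β : ℂ) - (t : ℝ) * Complex.I)) = pw β t n := by
  have h0 : (0 : ℝ) < n := by exact_mod_cast hn
  have h1 : (n : ℂ) ≠ 0 := by exact_mod_cast hn.ne'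
  rw [pw, ei, Real.rpow_def_of_pos h0, Complex.ofReal_exp, ← Complex.exp_add,
    Complex.cpow_def_of_ne_zero h1, ← Complex.natCast_log]
  congr 1
  push_cast
  ring

/- `GX.zeta_trunc` at `s = β - t i`: `(n : ℂ) ^ (-s) = pw β t n`; the pole term is at most
`(9 T ^ 2) ^ (2 / 9) * 2 / T ≤ 4 T ^ (-5 / 9)`, the error at most
`2 T * (16 / 7) * T ^ (-14 / 9) ≤ 5 T ^ (-5 / 9)`. -/
theorem trunc {β t T : ℝ} {M : ℕ} (hz : riemannZeta ((β : ℂ) - (t : ℝ) * Complex.I) = 0)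
    (h1 : 7 / 9 ≤ β) (h2 : β ≤ 1) (hT : 2 ≤ T) (h3 : T / 2 ≤ t) (h4 : t ≤ T)
    (h5 : T ^ 2 ≤ M) (h6 : (M : ℝ) ≤ 9 * T ^ 2) :
    ‖∑ n ∈ Ioc 0 M, pw β t n‖ ≤ 9 * T ^ (-(5 / 9) : ℝ) := by
  have hT0 : 0 < T := by linarith
  have hM1 : (1 : ℝ) ≤ M := by nlinarith
  have hM : 1 ≤ M := by exact_mod_cast hM1
  obtain ⟨s, hs⟩ : ∃ s : ℂ, s = (β : ℂ) - (t : ℝ) * Complex.I := ⟨_, rfl⟩
  have hre : s.re = β := by simp [hs]
  have him : s.im = -t := by simp [hs]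
  have hs1 : s ≠ 1 := by
    intro h
    rw [h, Complex.one_im] at him
    linarith
  have key := MP_778b46_nt.GX.zeta_trunc (s := s) (by rw [hre]; linarith) hs1 hM
  have e1 : ∑ n ∈ Ioc 0 M, (n : ℂ) ^ (-s) = ∑ n ∈ Ioc 0 M, pw β t n :=
    sum_congr rfl fun n hn => by rw [hs]; exact cut_pw β t (mem_Ioc.1 hn).1
  rw [← hs] at hz
  rw [hz, e1, hre] at key
  obtain ⟨u, hu⟩ : ∃ u : ℝ, u = T ^ (-(5 / 9) : ℝ) := ⟨_, rfl⟩
  have hu0 : 0 < u := hu ▸ Real.rpow_pos_of_pos hT0 _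
  rw [← hu]
  have n1 : ‖s‖ ≤ 2 * T := by
    have := Complex.norm_le_abs_re_add_abs_im s
    rw [hre, him, abs_neg, abs_of_nonneg (by linarith), abs_of_nonneg (by linarith)] at this
    linarith
  have n2 : T / 2 ≤ ‖s - 1‖ := by
    have := Complex.abs_im_le_norm (s - 1)
    rw [Complex.sub_im, him, Complex.one_im, sub_zero, abs_neg,
      abs_of_nonneg (by linarith)] at this
    linarith
  have n3 : 1 + 1 / β ≤ 16 / 7 := by
    have : 1 / β ≤ 9 / 7 := by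
      rw [div_le_iff₀ (by linarith)]
      linarith
    linarith
  have n4 : (M : ℝ) ^ (-β) ≤ u / T := by
    calc (M : ℝ) ^ (-β) ≤ (M : ℝ) ^ (-(7 / 9) : ℝ) :=
          Real.rpow_le_rpow_of_exponent_le hM1 (by linarith)
      _ ≤ (T ^ 2) ^ (-(7 / 9) : ℝ) :=
          Real.rpow_le_rpow_of_nonpos (by positivity) h5 (by norm_num)
      _ = u / T := by
          rw [hu, ← Real.rpow_natCast, ← Real.rpow_mul hT0.le, ← Real.rpow_sub_one hT0.ne']
          norm_num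
  have n5 : (M : ℝ) ^ (1 - β) ≤ 2 * (u * T) := by
    have a1 : (9 : ℝ) ^ (2 / 9 : ℝ) ≤ 2 := by
      calc (9 : ℝ) ^ (2 / 9 : ℝ) ≤ (2 ^ (9 / 2 : ℝ)) ^ (2 / 9 : ℝ) := by
            refine Real.rpow_le_rpow (by norm_num) ?_ (by norm_num)
            calc (9 : ℝ) ≤ 2 ^ ((4 : ℕ) : ℝ) := by rw [Real.rpow_natCast]; norm_num
              _ ≤ 2 ^ (9 / 2 : ℝ) :=
                Real.rpow_le_rpow_of_exponent_le (by norm_num) (by norm_num)
        _ = 2 := by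
            rw [← Real.rpow_mul (by norm_num)]
            norm_num
    calc (M : ℝ) ^ (1 - β) ≤ (M : ℝ) ^ (2 / 9 : ℝ) :=
          Real.rpow_le_rpow_of_exponent_le hM1 (by linarith)
      _ ≤ (9 * T ^ 2) ^ (2 / 9 : ℝ) := Real.rpow_le_rpow (by positivity) h6 (by norm_num)
      _ = 9 ^ (2 / 9 : ℝ) * (u * T) := by
          rw [Real.mul_rpow (by norm_num) (by positivity), hu, ← Real.rpow_natCast,
            ← Real.rpow_mul hT0.le, ← Real.rpow_add_one hT0.ne']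
          norm_num
      _ ≤ 2 * (u * T) := mul_le_mul_of_nonneg_right a1 (by positivity)
  have b1 : ‖(M : ℂ) ^ (1 - s) / (s - 1)‖ ≤ 4 * u := by
    rw [norm_div, Complex.norm_natCast_cpow_of_pos hM, Complex.sub_re, hre, Complex.one_re,
      div_le_iff₀ (by linarith)]
    nlinarith
  have b2 : ‖s‖ * (1 + 1 / β) * (M : ℝ) ^ (-β) ≤ 2 * T * (16 / 7) * (u / T) := by
    have : 0 ≤ 1 + 1 / β := by
      have : 0 < β := by linarith
      positivity
    gcongr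
  have b3 : 2 * T * (16 / 7) * (u / T) = 32 / 7 * u := by
    field_simp
    norm_num
  have e2 : ∑ n ∈ Ioc 0 M, pw β t n = -(0 - ∑ n ∈ Ioc 0 M, pw β t n -
      (M : ℂ) ^ (1 - s) / (s - 1)) - (M : ℂ) ^ (1 - s) / (s - 1) := by ring
  rw [e2]
  refine (norm_sub_le _ _).trans ?_
  rw [norm_neg]
  linarith

lemma cut_abel (w : ℕ → ℝ) (c : ℕ → ℂ) (K : ℕ) :
    ∑ n ∈ Ioc 0 K, (w n : ℂ) * c n =
      ∑ M ∈ Ioc 0 K, ((w M - w (M + 1) : ℝ) : ℂ) * ∑ n ∈ Ioc 0 M, c n +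
        (w (K + 1) : ℂ) * ∑ n ∈ Ioc 0 K, c n := by
  induction K with
  | zero => simp
  | succ K ih =>
    rw [sum_Ioc_succ_top (Nat.zero_le K), ih, sum_Ioc_succ_top (Nat.zero_le K),
      sum_Ioc_succ_top (Nat.zero_le K)]
    push_cast
    ring

lemma cut_tele (w : ℕ → ℝ) (K : ℕ) : ∑ M ∈ Ioc 0 K, (w M - w (M + 1)) = w 1 - w (K + 1) := by
  induction K with
  | zero => simp
  | succ K ih =>
    rw [sum_Ioc_succ_top (Nat.zero_le K), ih]
    ring

/- Abel summation: the sum is `∑ M ∈ Ioc 0 (3 Y), (cut (M / Y) - cut ((M + 1) / Y)) * S M` with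
`S M` the sum up to `M`; the weights are nonnegative (`cut_anti`), vanish for `M < Y` (`cut_one`)
and telescope to at most `1`. -/
theorem smooth_trunc (c : ℕ → ℂ) {Y : ℕ} (hY : 1 ≤ Y) {e : ℝ}
    (h : ∀ M : ℕ, Y ≤ M → M ≤ 3 * Y → ‖∑ n ∈ Ioc 0 M, c n‖ ≤ e) :
    ‖∑ n ∈ Ioc 0 (3 * Y), (cut (n / Y) : ℂ) * c n‖ ≤ e := by
  have hY0 : (0 : ℝ) < Y := by exact_mod_cast hY
  have he : 0 ≤ e := (norm_nonneg _).trans (h Y le_rfl (by omega))
  have hz : cut (((3 * Y + 1 : ℕ) : ℝ) / Y) = 0 := by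
    refine cut_zero ?_
    rw [le_div_iff₀ hY0]
    push_cast
    linarith
  rw [cut_abel (fun n => cut (n / Y)) c (3 * Y), hz, Complex.ofReal_zero, zero_mul, add_zero]
  refine (norm_sum_le_of_le _ (n := fun M : ℕ =>
    (cut (M / Y) - cut (((M + 1 : ℕ) : ℝ) / Y)) * e) fun M hM => ?_).trans ?_
  · have a1 : 0 ≤ cut (M / Y) - cut (((M + 1 : ℕ) : ℝ) / Y) := by
      refine sub_nonneg.2 (cut_anti ?_)
      gcongr
      omega
    rw [norm_mul, Complex.norm_real, Real.norm_of_nonneg a1]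
    rcases le_or_gt Y M with hYM | hYM
    · exact mul_le_mul_of_nonneg_left (h M hYM (mem_Ioc.1 hM).2) a1
    · have a2 : ((M + 1 : ℕ) : ℝ) ≤ Y := by exact_mod_cast hYM
      have a3 : (M : ℝ) ≤ Y := by exact_mod_cast hYM.le
      rw [cut_one (u := M / Y) (by rw [div_le_iff₀ hY0]; linarith),
        cut_one (u := ((M + 1 : ℕ) : ℝ) / Y) (by rw [div_le_iff₀ hY0]; linarith)]
      simp
  · rw [← sum_mul, cut_tele (fun n => cut (n / Y)) (3 * Y), hz, sub_zero]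
    exact mul_le_of_le_one_left he (cut_le_one _)

lemma cut_step {Y : ℕ} (hY : 1 ≤ Y) (β t : ℝ) :
    hd (2 * Y) β t = hd Y β t + sm (2 * Y) β t := by
  have hY0 : (0 : ℝ) < Y := by exact_mod_cast hY
  have e1 : hd Y β t = ∑ n ∈ Ioc 0 (3 * (2 * Y)), (cut (n / Y) : ℂ) * pw β t n := by
    refine sum_subset (Ioc_subset_Ioc_right (by omega)) fun n hn hn' => ?_
    have a1 : 3 * Y ≤ n := by
      simp only [mem_Ioc] at hn hn'
      omega
    have a2 : ((3 * Y : ℕ) : ℝ) ≤ n := by exact_mod_cast a1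
    push_cast at a2
    rw [cut_zero (by rw [le_div_iff₀ hY0]; linarith), Complex.ofReal_zero, zero_mul]
  have e2 : sm (2 * Y) β t =
      ∑ n ∈ Ioc 0 (3 * (2 * Y)), (psi (n / (2 * Y : ℕ)) : ℂ) * pw β t n := by
    have s1 : range (3 * (2 * Y)) ⊆ range (3 * (2 * Y) + 1) := range_mono (by omega)
    have s2 : Ioc 0 (3 * (2 * Y)) ⊆ range (3 * (2 * Y) + 1) := fun n hn => by
      simp only [mem_Ioc, mem_range] at hn ⊢
      omega
    refine (sum_subset s1 fun n hn hn' => ?_).trans (sum_subset s2 fun n hn hn' => ?_).symm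
    · have a1 : n = 3 * (2 * Y) := by
        simp only [mem_range] at hn hn'
        omega
      have a2 : (n : ℝ) / (2 * Y : ℕ) = 3 := by
        rw [a1]
        push_cast
        field_simp
      rw [a2, psi, cut_zero (by norm_num), cut_zero (by norm_num)]
      simp
    · have a1 : n = 0 := by
        simp only [mem_Ioc, mem_range] at hn hn'
        omega
      rw [a1, psi]
      simp
  rw [e1, e2, ← sum_add_distrib]
  refine sum_congr rfl fun n _ => ?_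
  have a1 : 2 * ((n : ℝ) / (2 * Y : ℕ)) = n / Y := by
    push_cast
    field_simp
  rw [psi, a1]
  push_cast
  ring

/- Induction on `J`: `hd (2 Y) = hd Y + sm (2 Y)`, because `psi (n / (2 Y)) = cut (n / (2 Y)) -
cut (n / Y)`, `cut (n / Y) = 0` for `n > 3 Y`, `psi 0 = 0` and `psi 3 = 0`. -/
theorem hd_split {j0 J : ℕ} (h : j0 ≤ J) (β t : ℝ) :
    hd (2 ^ J) β t = hd (2 ^ j0) β t + ∑ j ∈ Ioc j0 J, sm (2 ^ j) β t := by
  induction J, h using Nat.le_induction with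
  | base => simp
  | succ J hJ ih =>
    rw [sum_Ioc_succ_top hJ, pow_succ', cut_step Nat.one_le_two_pow, ih, add_assoc]

end Pool.Agent.Lib.MP_ecd12e_nt.ZD
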