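import Pool.Agent.Lib.MP_ecd12e_nt.Sch.Defs

/-! Definitions for the detection of zeros of the zeta function. -/

namespace Pool.Agent.Lib.MP_ecd12e_nt.ZD

open Finset Real
open Pool.Agent.Lib.MP_ecd12e_nt.Bar (ei)

/-- `n ^ (-(β - i t))`. -/
noncomputable def pw (β t : ℝ) (n : ℕ) : ℂ := (((n : ℝ) ^ (-β) : ℝ) : ℂ) * ei (t * Real.log n)

/-- Smooth, decreasing, `1` up to `3 / 2` and `0` from `9 / 4` on. -/
noncomputable def cut (u : ℝ) : ℝ := Real.smoothTransition ((9 / 4 - u) * (4 / 3))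

/-- One piece of the dyadic partition of unity. -/
noncomputable def psi (u : ℝ) : ℝ := cut u - cut (2 * u)

/-- The piece times the inverse of a Gaussian in the logarithm. -/
noncomputable def psig (u : ℝ) : ℝ := psi u * Real.exp (Real.log u ^ 2 / 2)

/-- A smooth block of the zeta sum. -/
noncomputable def sm (N : ℕ) (β t : ℝ) : ℂ :=
  ∑ n ∈ range (3 * N), (psi (n / N) : ℂ) * pw β t n

/-- The head of the zeta sum. -/
noncomputable def hd (Y : ℕ) (β t : ℝ) : ℂ :=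
  ∑ n ∈ Ioc 0 (3 * Y), (cut (n / Y) : ℂ) * pw β t n

/-- The mollifier. -/
noncomputable def mo (X : ℕ) (β t : ℝ) : ℂ :=
  ∑ d ∈ Ioc 0 X, ((ArithmeticFunction.moebius d : ℤ) : ℂ) * pw β t d

/-- The coefficients of the mollified head. -/
noncomputable def co (X Y n : ℕ) : ℝ :=
  ∑ p ∈ n.divisorsAntidiagonal,
    if p.1 ≤ X then ((ArithmeticFunction.moebius p.1 : ℤ) : ℝ) * cut (p.2 / Y) else 0

/-- A dyadic block of the mollified head. -/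
noncomputable def bl (X Y N : ℕ) (β t : ℝ) : ℂ :=
  ∑ n ∈ Ioc N (2 * N), (co X Y n : ℂ) * pw β t n

/-- A sharp zeta sum. -/
noncomputable def zs (μ y : ℕ) (t : ℝ) : ℂ := ∑ m ∈ Ico μ y, ei (t * Real.log m)

/-- The majorant of one block of the dual sum. -/
noncomputable def mj (μ : ℕ) (t : ℝ) : ℝ :=
  ‖zs μ (2 * μ) t‖ + (∑ y ∈ Ioc μ (2 * μ), ‖zs μ y t‖) / μ

/-- The large value bound for short polynomials, with a loss in the level. -/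
def Eta : Prop :=
  ∀ A ε : ℝ, 0 < ε → ∃ C K : ℝ, 0 ≤ C ∧ 0 ≤ K ∧ ∀ (N : ℕ) (T σ η : ℝ) (b : ℕ → ℂ) (W : Finset ℤ),
    1 ≤ N → (N : ℝ) ^ 2 ≤ T → T ≤ (N : ℝ) ^ A → 7 / 9 ≤ σ → σ ≤ 1 → 0 < η → η ≤ 1 →
    (∀ n, ‖b n‖ ≤ 1) →
    (∀ t ∈ W, 0 ≤ (t : ℝ) ∧ (t : ℝ) ≤ T ∧
      η * (N : ℝ) ^ σ ≤ ‖∑ n ∈ Icc N (2 * N), b n * ei (t * Real.log n)‖) →
    (W.card : ℝ) ≤ C * T ^ (2 - 2 * σ + ε) / η ^ K

/-- One point `β k - i t k` for each `k` in `K`, with `k` the integer part of `t k`. -/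
def Pts (K : Finset ℤ) (β t : ℤ → ℝ) (σ T : ℝ) : Prop :=
  ∀ k ∈ K, σ ≤ β k ∧ β k ≤ 1 ∧ ⌊t k⌋ = k ∧ T / 2 ≤ t k ∧ t k ≤ T

lemma pw_mul (β t : ℝ) {m n : ℕ} (hm : 1 ≤ m) (hn : 1 ≤ n) :
    pw β t (m * n) = pw β t m * pw β t n := by
  have h1 : (0 : ℝ) < m := by exact_mod_cast hm
  have h2 : (0 : ℝ) < n := by exact_mod_cast hn
  unfold pw
  rw [Nat.cast_mul, Real.mul_rpow h1.le h2.le, Real.log_mul h1.ne' h2.ne', mul_add, Bar.ei_add]
  push_cast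
  ring

lemma pw_one (β t : ℝ) : pw β t 1 = 1 := by simp [pw, Bar.ei_zero]

lemma norm_pw (β t : ℝ) (n : ℕ) : ‖pw β t n‖ = (n : ℝ) ^ (-β) := by
  rw [pw, norm_mul, Bar.norm_ei, mul_one, Complex.norm_real, Real.norm_of_nonneg (by positivity)]

lemma cut_one {u : ℝ} (h : u ≤ 3 / 2) : cut u = 1 :=
  Real.smoothTransition.one_of_one_le (by linarith)

lemma cut_zero {u : ℝ} (h : 9 / 4 ≤ u) : cut u = 0 :=
  Real.smoothTransition.zero_of_nonpos (by linarith)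

lemma cut_nonneg (u : ℝ) : 0 ≤ cut u := Real.smoothTransition.nonneg _

lemma cut_le_one (u : ℝ) : cut u ≤ 1 := Real.smoothTransition.le_one _

lemma cut_anti {u v : ℝ} (h : u ≤ v) : cut v ≤ cut u :=
  Real.smoothTransition.monotone (by linarith)

end Pool.Agent.Lib.MP_ecd12e_nt.ZD
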