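import Pool.Agent.Lib.MP_ecd12e_nt.ZD.Cut
import Pool.Agent.Lib.MP_ecd12e_nt.ZD.Moll

/-! A zero makes one of few sums large. -/

namespace Pool.Agent.Lib.MP_ecd12e_nt.ZD

open Finset Real
open Pool.Agent.Lib.MP_ecd12e_nt.Bar (ei)

/- `trunc` and `smooth_trunc` give `‖hd (2 ^ J)‖ ≤ 9 T ^ (-5 / 9)`; multiply `hd_split` by `mo`,
use `moll` and `norm_mo`: `1 ≤ 1 / 3 + ∑ ‖bl‖ + X ∑ ‖sm‖`. -/
theorem detect {β t T : ℝ} {X j0 J : ℕ} (hz : riemannZeta ((β : ℂ) - (t : ℝ) * Complex.I) = 0)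
    (h1 : 7 / 9 ≤ β) (h2 : β ≤ 1) (hT : 2 ≤ T) (h3 : T / 2 ≤ t) (h4 : t ≤ T)
    (h5 : T ^ 2 ≤ 2 ^ J) (h6 : (2 : ℝ) ^ J ≤ 2 * T ^ 2) (hX : 1 ≤ X) (hXj : X ≤ 2 ^ j0)
    (hj : j0 ≤ J) (hs : 27 * X * T ^ (-(5 / 9) : ℝ) ≤ 1) :
    (∃ i < j0 + 2, 1 / (3 * ((J : ℝ) + 2)) ≤ ‖bl X (2 ^ j0) (2 ^ i * X) β t‖) ∨
      ∃ j, j0 < j ∧ j ≤ J ∧ 1 / (3 * X * ((J : ℝ) + 2)) ≤ ‖sm (2 ^ j) β t‖ := by
  by_contra hcon
  rw [not_or] at hcon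
  obtain ⟨hA, hB⟩ := hcon
  push Not at hA hB
  have hXr : (1 : ℝ) ≤ X := by exact_mod_cast hX
  have hJ : (0 : ℝ) < (J : ℝ) + 2 := by positivity
  have hjr : (j0 : ℝ) ≤ J := by exact_mod_cast hj
  have hT0 : 0 ≤ T ^ 2 := by positivity
  have hh : ‖hd (2 ^ J) β t‖ ≤ 9 * T ^ (-(5 / 9) : ℝ) := by
    refine smooth_trunc (pw β t) Nat.one_le_two_pow fun M hM hM' => ?_
    have a1 : ((2 ^ J : ℕ) : ℝ) ≤ M := by exact_mod_cast hM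
    have a2 : (M : ℝ) ≤ ((3 * 2 ^ J : ℕ) : ℝ) := by exact_mod_cast hM'
    push_cast at a1 a2
    exact trunc hz h1 h2 hT h3 h4 (h5.trans a1) (by linarith)
  have hm : ‖mo X β t‖ ≤ X := norm_mo X (by linarith) t
  have e1 : (1 : ℂ) = hd (2 ^ J) β t * mo X β t -
      ∑ i ∈ range (j0 + 2), bl X (2 ^ j0) (2 ^ i * X) β t -
      (∑ j ∈ Ioc j0 J, sm (2 ^ j) β t) * mo X β t := by
    rw [hd_split hj, add_mul, moll hX hXj]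
    ring
  have b1 : ‖hd (2 ^ J) β t * mo X β t‖ ≤ 1 / 3 := by
    rw [norm_mul]
    have := mul_le_mul hh hm (norm_nonneg _) ((norm_nonneg _).trans hh)
    linarith
  have b2 : ‖∑ i ∈ range (j0 + 2), bl X (2 ^ j0) (2 ^ i * X) β t‖ ≤
      ((j0 : ℝ) + 2) * (1 / (3 * ((J : ℝ) + 2))) := by
    refine (norm_sum_le _ _).trans ?_
    have := sum_le_card_nsmul (range (j0 + 2)) (fun i => ‖bl X (2 ^ j0) (2 ^ i * X) β t‖)
      (1 / (3 * ((J : ℝ) + 2))) fun i hi => (hA i (mem_range.1 hi)).le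
    rw [card_range, nsmul_eq_mul] at this
    push_cast at this
    exact this
  have b3 : ‖∑ j ∈ Ioc j0 J, sm (2 ^ j) β t‖ ≤
      ((J : ℝ) - j0) * (1 / (3 * X * ((J : ℝ) + 2))) := by
    refine (norm_sum_le _ _).trans ?_
    have := sum_le_card_nsmul (Ioc j0 J) (fun j => ‖sm (2 ^ j) β t‖)
      (1 / (3 * X * ((J : ℝ) + 2))) fun j hj' => (hB j (mem_Ioc.1 hj').1 (mem_Ioc.1 hj').2).le
    rw [Nat.card_Ioc, nsmul_eq_mul, Nat.cast_sub hj] at this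
    exact this
  have b4 : ‖(∑ j ∈ Ioc j0 J, sm (2 ^ j) β t) * mo X β t‖ ≤
      ((J : ℝ) - j0) * (1 / (3 * ((J : ℝ) + 2))) := by
    rw [norm_mul]
    refine (mul_le_mul b3 hm (norm_nonneg _) ((norm_nonneg _).trans b3)).trans (le_of_eq ?_)
    field_simp
  have b5 : ((j0 : ℝ) + 2) * (1 / (3 * ((J : ℝ) + 2))) +
      ((J : ℝ) - j0) * (1 / (3 * ((J : ℝ) + 2))) = 1 / 3 := by
    field_simp
    ring
  have b6 := congrArg norm e1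
  rw [norm_one] at b6
  have b7 := (norm_sub_le _ _).trans (add_le_add ((norm_sub_le _ _).trans (add_le_add b1 b2)) b4)
  linarith

end Pool.Agent.Lib.MP_ecd12e_nt.ZD
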