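import Pool.Agent.Lib.MP_778b46_nt.GX.Z4a

/-! The local count of the zeros of the zeta function. -/

set_option autoImplicit false

noncomputable section

namespace Pool.Agent.Lib.MP_ecd12e_nt.ZD

open Complex Finset Filter Topology Pool.Agent.Lib.MP_778b46_nt.GX

theorem zero_norm {ρ : ℂ} (h : riemannZeta ρ = 0) :
    ρ.re < 1 ∧ riemannZeta ((ρ.re : ℂ) - (|ρ.im| : ℝ) * Complex.I) = 0 := by
  refine ⟨not_le.1 fun h1 => riemannZeta_ne_zero_of_one_le_re h1 h, ?_⟩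
  rcases le_total 0 ρ.im with h1 | h1
  · have e : (ρ.re : ℂ) - (|ρ.im| : ℝ) * Complex.I = (starRingEnd ℂ) ρ := by
      rw [abs_of_nonneg h1]
      apply Complex.ext <;> simp
    rw [e, riemannZeta_conj, h, map_zero]
  · have e : (ρ.re : ℂ) - (|ρ.im| : ℝ) * Complex.I = ρ := by
      rw [abs_of_nonpos h1]
      apply Complex.ext <;> simp
    rw [e, h]

theorem jen_LF : LF (1 : DirichletCharacter ℂ 1) = riemannZeta₁ := by
  funext s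
  rw [LF_one_apply]
  simp

theorem jen_ord {ρ : ℂ} (h : ρ ≠ 1) :
    analyticOrderNatAt riemannZeta ρ = analyticOrderNatAt riemannZeta₁ ρ := by
  have h1 : riemannZeta =ᶠ[𝓝 ρ] (fun s : ℂ => (s - 1)⁻¹) * riemannZeta₁ := by
    filter_upwards [isOpen_ne.mem_nhds h] with s hs
    exact riemannZeta_eq_inv_sub_mul hs
  have h2 : AnalyticAt ℂ (fun s : ℂ => (s - 1)⁻¹) ρ :=
    (analyticAt_id.sub analyticAt_const).inv (sub_ne_zero.2 h)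
  unfold analyticOrderNatAt
  rw [analyticOrderAt_congr h1, analyticOrderAt_mul h2 (differentiable_riemannZeta₁.analyticAt ρ),
    h2.analyticOrderAt_eq_zero.2 (inv_ne_zero (sub_ne_zero.2 h)), zero_add]

/-- The zeros with ordinate within `1 / 2` of `t`. -/
theorem jen_loc (t : ℝ) (Z : Finset ℂ)
    (hZ : ∀ ρ ∈ Z, riemannZeta ρ = 0 ∧ 1 / 2 ≤ ρ.re ∧ |ρ.im - t| ≤ 1 / 2) :
    ∑ ρ ∈ Z, (analyticOrderNatAt riemannZeta ρ : ℝ) ≤ 7 * Real.log (24 * (|t| + 5) ^ 2) := by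
  have h := LF_count (1 : DirichletCharacter ℂ 1) t Z fun z hz => by
    obtain ⟨h0, h1, h2⟩ := hZ z hz
    have h3 := (zero_norm h0).1
    have h4 := abs_le.1 h2
    refine (sq_le_sq₀ (norm_nonneg _) (by norm_num)).1 ?_
    rw [Complex.sq_norm, Complex.normSq_apply]
    simp only [sub_re, add_re, re_ofNat, mul_re, ofReal_re, I_re, mul_zero, ofReal_im, I_im,
      mul_one, sub_self, add_zero, sub_im, add_im, im_ofNat, mul_im, zero_add]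
    nlinarith
  rw [jen_LF, Nat.cast_one, mul_one] at h
  refine le_trans (le_of_eq (sum_congr rfl fun ρ hρ => ?_)) h
  rw [jen_ord fun e => by simpa [e] using (zero_norm (hZ ρ hρ).1).1]

theorem jen_log {T t : ℝ} (hT : 1 ≤ T) (ht : |t| ≤ T + 1) :
    Real.log (24 * (|t| + 5) ^ 2) ≤ 7 * Real.log (T + 2) := by
  have h0 := abs_nonneg t
  have h1 : |t| + 5 ≤ (T + 2) ^ 2 := by nlinarith
  have h2 : 24 ≤ (T + 2) ^ 3 := by
    nlinarith [pow_le_pow_left₀ (by norm_num) (show 3 ≤ T + 2 by linarith) 3]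
  have h3 : 24 * (|t| + 5) ^ 2 ≤ (T + 2) ^ 7 :=
    calc 24 * (|t| + 5) ^ 2 ≤ (T + 2) ^ 3 * ((T + 2) ^ 2) ^ 2 :=
          mul_le_mul h2 (pow_le_pow_left₀ (by positivity) h1 2) (by positivity) (by positivity)
      _ = _ := by ring
  have h4 := Real.log_le_log (by positivity) h3
  rwa [Real.log_pow, Nat.cast_ofNat] at h4

theorem jen : ∃ C : ℝ, 0 < C ∧ ∀ (T : ℝ) (Z : Finset ℂ), 1 ≤ T →
    (∀ ρ ∈ Z, riemannZeta ρ = 0 ∧ 7 / 9 ≤ ρ.re ∧ |ρ.im| ≤ T) →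
      ∑ ρ ∈ Z, (analyticOrderNatAt riemannZeta ρ : ℝ) ≤
        C * Real.log (T + 2) * ((Z.image fun ρ => ⌊|ρ.im|⌋).card : ℝ) := by
  refine ⟨98, by norm_num, fun T Z hT hZ => ?_⟩
  rw [← sum_fiberwise_of_maps_to (t := Z.image fun ρ => ⌊|ρ.im|⌋) (g := fun ρ => ⌊|ρ.im|⌋)
    (fun ρ hρ => mem_image_of_mem _ hρ), mul_comm, ← nsmul_eq_mul]
  refine sum_le_card_nsmul _ _ _ fun k hk => ?_
  obtain ⟨ρ₀, h0, rfl⟩ := mem_image.1 hk
  obtain ⟨t, ht⟩ : ∃ t : ℝ, t = ⌊|ρ₀.im|⌋ + 1 / 2 := ⟨_, rfl⟩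
  have h1 : |t| ≤ T + 1 := by
    have h2 := Int.floor_le |ρ₀.im|
    have h3 : (0 : ℝ) ≤ ⌊|ρ₀.im|⌋ := by exact_mod_cast Int.floor_nonneg.2 (abs_nonneg _)
    rw [abs_of_nonneg (by linarith)]
    linarith [(hZ ρ₀ h0).2.2]
  have h4 : ∀ ρ ∈ Z.filter fun ρ => ⌊|ρ.im|⌋ = ⌊|ρ₀.im|⌋,
      riemannZeta ρ = 0 ∧ 1 / 2 ≤ ρ.re ∧ abs (|ρ.im| - t) ≤ 1 / 2 := fun ρ hρ => by
    obtain ⟨h5, h6⟩ := mem_filter.1 hρ
    have h7 := Int.floor_le |ρ.im|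
    have h8 := Int.lt_floor_add_one |ρ.im|
    rw [h6] at h7 h8
    exact ⟨(hZ ρ h5).1, by linarith [(hZ ρ h5).2.1], abs_le.2 ⟨by linarith, by linarith⟩⟩
  rw [← sum_filter_add_sum_filter_not _ fun ρ : ℂ => 0 ≤ ρ.im]
  have h5 := jen_loc t _ fun ρ (hρ : ρ ∈ (Z.filter fun ρ => ⌊|ρ.im|⌋ = ⌊|ρ₀.im|⌋).filter
      fun ρ : ℂ => 0 ≤ ρ.im) => by
    obtain ⟨a, b⟩ := mem_filter.1 hρ
    have h6 := h4 ρ a
    rwa [abs_of_nonneg b] at h6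
  have h6 := jen_loc (-t) _ fun ρ (hρ : ρ ∈ (Z.filter fun ρ => ⌊|ρ.im|⌋ = ⌊|ρ₀.im|⌋).filter
      fun ρ : ℂ => ¬0 ≤ ρ.im) => by
    obtain ⟨a, b⟩ := mem_filter.1 hρ
    have h6 := h4 ρ a
    rwa [abs_of_neg (not_le.1 b), ← abs_neg, show -(-ρ.im - t) = ρ.im - -t by ring] at h6
  rw [abs_neg] at h6
  linarith [jen_log hT h1]

end Pool.Agent.Lib.MP_ecd12e_nt.ZD
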