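import Pool.Agent.Lib.MP_ecd12e_nt.ZD.Core
import Pool.Agent.Lib.MP_ecd12e_nt.ZD.Jen

/-! The density estimate. -/

namespace Pool.Agent.Lib.MP_ecd12e_nt.ZD

open Finset Real

theorem fin_log {T δ : ℝ} (hT : 1 ≤ T) (hδ : 0 < δ) :
    ((Nat.log 2 ⌊T⌋₊ + 1 : ℕ) : ℝ) ≤ (2 / δ + 1) * T ^ δ := by
  have h1 : (1 : ℝ) ≤ T ^ δ := one_le_rpow hT hδ.le
  have h2 : (2 : ℝ) ^ Nat.log 2 ⌊T⌋₊ ≤ T := by
    refine le_trans ?_ (Nat.floor_le (by linarith))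
    exact_mod_cast Nat.pow_log_le_self 2 (Nat.floor_pos.2 hT).ne'
  have h3 := Real.log_le_log (by positivity) h2
  rw [Real.log_pow] at h3
  have h4 := Real.log_le_rpow_div (show 0 ≤ T by linarith) hδ
  have h5 := Real.log_two_gt_d9
  have h6 : (0 : ℝ) ≤ Nat.log 2 ⌊T⌋₊ := Nat.cast_nonneg _
  have h7 : (2 / δ + 1) * T ^ δ = 2 * (T ^ δ / δ) + T ^ δ := by ring
  push_cast
  nlinarith

theorem fin_card (h : Eta) {δ : ℝ} (hδ : 0 < δ) : ∃ C : ℝ, 0 ≤ C ∧ ∀ σ T : ℝ, 7 / 9 ≤ σ → σ ≤ 1 →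
    1 ≤ T → ∀ Z : Finset ℂ, (∀ ρ ∈ Z, riemannZeta ρ = 0 ∧ σ ≤ ρ.re ∧ |ρ.im| ≤ T) →
      ((Z.image fun ρ => ⌊|ρ.im|⌋).card : ℝ) ≤ C * T ^ (2 - 2 * σ + δ + δ) := by
  obtain ⟨C, T1, hC, hc⟩ := core h hδ
  refine ⟨(⌈T1⌉₊ + 1 : ℕ) + (2 / δ + 1) * (C * 2 ^ (2 + δ)), by positivity,
    fun σ T h1 h2 hT Z hZ => ?_⟩
  obtain ⟨K, hK⟩ : ∃ K, K = Z.image fun ρ => ⌊|ρ.im|⌋ := ⟨_, rfl⟩
  rw [← hK]
  have h3 : ∀ k : ℤ, ∃ ρ : ℂ, k ∈ K → ρ ∈ Z ∧ ⌊|ρ.im|⌋ = k := fun k => by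
    by_cases hk : k ∈ K
    · obtain ⟨ρ, a, b⟩ := mem_image.1 (hK ▸ hk)
      exact ⟨ρ, fun _ => ⟨a, b⟩⟩
    · exact ⟨0, fun e => absurd e hk⟩
  choose ρ hρ using h3
  obtain ⟨M, hM⟩ : ∃ M : ℕ, M = ⌈T1⌉₊ + 1 := ⟨_, rfl⟩
  rw [← hM]
  have hM1 : T1 ≤ M := by
    rw [hM]
    push_cast
    linarith [Nat.le_ceil T1]
  have h4 : ((K.filter fun k : ℤ => k < M).card : ℝ) ≤ M := by
    have h5 : (K.filter fun k : ℤ => k < M) ⊆ Ico (0 : ℤ) M := fun k hk => by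
      obtain ⟨a, b⟩ := mem_filter.1 hk
      exact mem_Ico.2 ⟨(hρ k a).2 ▸ Int.floor_nonneg.2 (abs_nonneg _), b⟩
    have h6 := card_le_card h5
    rw [Int.card_Ico, sub_zero, Int.toNat_natCast] at h6
    exact_mod_cast h6
  have h5 : ∀ k ∈ K.filter fun k : ℤ => ¬k < M, (M : ℝ) ≤ k ∧ (k : ℝ) ≤ |(ρ k).im| ∧
      |(ρ k).im| < k + 1 ∧ (2 : ℝ) ^ Nat.log 2 k.toNat ≤ k ∧
        (k : ℝ) + 1 ≤ 2 ^ (Nat.log 2 k.toNat + 1) := fun k hk => by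
    obtain ⟨a, b⟩ := mem_filter.1 hk
    have c1 := Int.floor_le |(ρ k).im|
    have c2 := Int.lt_floor_add_one |(ρ k).im|
    rw [(hρ k a).2] at c1 c2
    obtain ⟨m, rfl⟩ := Int.eq_ofNat_of_zero_le (show 0 ≤ k by omega)
    rw [Int.toNat_natCast]
    refine ⟨by exact_mod_cast not_lt.1 b, c1, c2, ?_, ?_⟩
    · exact_mod_cast Nat.pow_log_le_self 2 (show m ≠ 0 by omega)
    · exact_mod_cast Nat.lt_pow_succ_log_self one_lt_two m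
  have h6 : ∀ k ∈ K.filter fun k : ℤ => ¬k < M,
      Nat.log 2 k.toNat ∈ range (Nat.log 2 ⌊T⌋₊ + 1) := fun k hk => by
    refine mem_range.2 (Nat.lt_succ_of_le (Nat.log_mono_right (Nat.le_floor ?_)))
    obtain ⟨a, b, -⟩ := h5 k hk
    have c1 : (0 : ℤ) ≤ k := by exact_mod_cast (Nat.cast_nonneg (α := ℝ) M).trans a
    have c2 : ((k.toNat : ℕ) : ℝ) = k := by exact_mod_cast Int.toNat_of_nonneg c1
    rw [c2]
    exact b.trans (hZ _ (hρ k (mem_filter.1 hk).1).1).2.2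
  have hT0 : 0 < T := by linarith
  have h7 : ∀ i ∈ range (Nat.log 2 ⌊T⌋₊ + 1),
      (((K.filter fun k : ℤ => ¬k < M).filter fun k => Nat.log 2 k.toNat = i).card : ℝ) ≤
        C * 2 ^ (2 + δ) * T ^ (2 - 2 * σ + δ) := fun i _ => by
    rcases ((K.filter fun k : ℤ => ¬k < M).filter fun k => Nat.log 2 k.toNat = i).eq_empty_or_nonempty
      with e | ⟨k₀, hk₀⟩
    · rw [e, card_empty, Nat.cast_zero]
      positivity
    obtain ⟨a, b⟩ := mem_filter.1 hk₀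
    obtain ⟨c1, c2, -, c4, c5⟩ := h5 k₀ a
    have c6 := (hZ _ (hρ k₀ (mem_filter.1 a).1).1).2.2
    rw [b] at c4 c5
    refine (hc (2 ^ (i + 1)) σ _ (fun k => (ρ k).re) (fun k => |(ρ k).im|) (by linarith) h1 h2
      (fun k hk => ?_) fun k hk => ?_).trans ?_
    · obtain ⟨a, b⟩ := mem_filter.1 hk
      obtain ⟨-, d2, d3, d4, d5⟩ := h5 k a
      obtain ⟨e1, e2⟩ := hρ k (mem_filter.1 a).1
      rw [b] at d4 d5
      refine ⟨(hZ _ e1).2.1, (zero_norm (hZ _ e1).1).1.le, e2, ?_, by linarith⟩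
      rw [pow_succ]
      linarith
    · exact (zero_norm (hZ _ (hρ k (mem_filter.1 (mem_filter.1 hk).1).1).1).1).2
    · rw [mul_assoc]
      refine mul_le_mul_of_nonneg_left ?_ hC
      calc ((2 : ℝ) ^ (i + 1)) ^ (2 - 2 * σ + δ) ≤ (2 * T) ^ (2 - 2 * σ + δ) :=
            rpow_le_rpow (by positivity) (by rw [pow_succ]; linarith) (by linarith)
        _ ≤ _ := by
            rw [mul_rpow zero_le_two hT0.le]
            exact mul_le_mul_of_nonneg_right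
              (rpow_le_rpow_of_exponent_le one_le_two (by linarith)) (by positivity)
  have h8 : ((K.filter fun k : ℤ => ¬k < M).card : ℝ) ≤
      (2 / δ + 1) * T ^ δ * (C * 2 ^ (2 + δ) * T ^ (2 - 2 * σ + δ)) := by
    rw [card_eq_sum_card_fiberwise h6, Nat.cast_sum]
    refine (sum_le_card_nsmul _ _ _ h7).trans ?_
    rw [card_range, nsmul_eq_mul]
    exact mul_le_mul_of_nonneg_right (fin_log hT hδ) (by positivity)
  have h9 : (1 : ℝ) ≤ T ^ (2 - 2 * σ + δ + δ) := one_le_rpow hT (by linarith)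
  have h10 : (M : ℝ) ≤ M * T ^ (2 - 2 * σ + δ + δ) := le_mul_of_one_le_right (by positivity) h9
  rw [← card_filter_add_card_filter_not (s := K) fun k : ℤ => k < M, Nat.cast_add, add_mul]
  refine add_le_add (h4.trans h10) (h8.trans (le_of_eq ?_))
  rw [rpow_add hT0 (2 - 2 * σ + δ) δ]
  ring

theorem density (h : Eta) (ε : ℝ) (hε : 0 < ε) : ∃ C : ℝ, ∀ σ T : ℝ, 7 / 9 ≤ σ → σ ≤ 1 → 1 ≤ T →
    ∀ Z : Finset ℂ, (∀ ρ ∈ Z, riemannZeta ρ = 0 ∧ σ ≤ ρ.re ∧ |ρ.im| ≤ T) →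
      ∑ ρ ∈ Z, (analyticOrderNatAt riemannZeta ρ : ℝ) ≤ C * T ^ (2 * (1 - σ) + ε) := by
  have hδ : 0 < ε / 3 := by positivity
  obtain ⟨C, hC, hc⟩ := fin_card h hδ
  obtain ⟨D, hD, hd⟩ := jen
  refine ⟨D * (3 ^ (ε / 3) / (ε / 3)) * C, fun σ T h1 h2 hT Z hZ => ?_⟩
  have hT0 : 0 < T := by linarith
  have h3 : Real.log (T + 2) ≤ 3 ^ (ε / 3) / (ε / 3) * T ^ (ε / 3) := by
    refine (Real.log_le_log (by linarith) (show T + 2 ≤ 3 * T by linarith)).trans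
      ((Real.log_le_rpow_div (by positivity) hδ).trans (le_of_eq ?_))
    rw [mul_rpow (by norm_num) hT0.le]
    ring
  refine (hd T Z hT fun ρ hρ => ⟨(hZ ρ hρ).1, h1.trans (hZ ρ hρ).2.1, (hZ ρ hρ).2.2⟩).trans
    ((mul_le_mul (mul_le_mul_of_nonneg_left h3 hD.le) (hc σ T h1 h2 hT Z hZ) (by positivity)
      (by positivity)).trans (le_of_eq ?_))
  rw [show 2 * (1 - σ) + ε = ε / 3 + (2 - 2 * σ + ε / 3 + ε / 3) by ring, rpow_add hT0 (ε / 3)]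
  ring

end Pool.Agent.Lib.MP_ecd12e_nt.ZD
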