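import Pool.Agent.Lib.MP_ecd12e_nt.ZD.Tay
import Pool.Agent.Lib.MP_ecd12e_nt.GM.Mom
import Pool.Agent.Lib.MP_ecd12e_nt.GM.Sub

/-! The fourth moment of sharp zeta sums at real points. -/

namespace Pool.Agent.Lib.MP_ecd12e_nt.ZD

open Finset Real
open Pool.Agent.Lib.MP_ecd12e_nt.Bar (ei)
open Pool.Agent.Lib.MP_ecd12e_nt.GM (Lg)

lemma mom_add (a b : ℝ) : (a + b) ^ 4 ≤ 8 * (a ^ 4 + b ^ 4) := by
  nlinarith [sq_nonneg (a - b), sq_nonneg (a + b), sq_nonneg (a ^ 2 - b ^ 2),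
    mul_nonneg (sq_nonneg (a - b)) (sq_nonneg (a + b)), sq_nonneg ((a - b) ^ 2)]

/-- The coefficients of the Taylor terms. -/
noncomputable def momG (μ y j n : ℕ) : ℂ :=
  if n ∈ Ico μ y then ((Real.log (n / μ) ^ j : ℝ) : ℂ) else 0

lemma mom_norm {μ y : ℕ} (hμ : 1 ≤ μ) (hy : y ≤ 2 * μ) (j n : ℕ) : ‖momG μ y j n‖ ≤ 1 := by
  unfold momG
  split_ifs with h
  · rw [Complex.norm_real, Real.norm_eq_abs]
    rw [mem_Ico] at h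
    exact abs_log_pow hμ (mem_Icc.2 ⟨h.1, by omega⟩) j
  · simp

lemma mom_pt {μ y J : ℕ} (hμ : 1 ≤ μ) (hy : y ≤ 2 * μ) (hJ : 1 ≤ J) (h2 : μ ≤ 2 ^ J) (u : ℝ) :
    ‖zs μ y u‖ ^ 4 ≤ 32768 + 5000 * ∑ j ∈ range J, ‖GM.Zb μ (momG μ y j) ⌊u⌋‖ ^ 4 := by
  obtain ⟨j, hj, h⟩ := taylor hμ hJ (a := fun n => if n ∈ Ico μ y then 1 else 0) (B := 1) (β := 0)
    (fun n _ => by split_ifs <;> simp) le_rfl zero_le_one u
  have hs : Ico μ y ⊆ Icc μ (2 * μ) := fun n hn => by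
    rw [mem_Ico] at hn
    exact mem_Icc.2 ⟨hn.1, by omega⟩
  have e1 : ∑ n ∈ Icc μ (2 * μ), (if n ∈ Ico μ y then (1 : ℂ) else 0) * pw 0 u n = zs μ y u := by
    simp only [ite_mul, one_mul, zero_mul]
    rw [sum_ite_mem, inter_eq_right.2 hs, zs]
    exact sum_congr rfl fun n _ => by simp [pw]
  have e2 : ∑ n ∈ Icc μ (2 * μ), (if n ∈ Ico μ y then (1 : ℂ) else 0) *
      ((Real.log (n / μ) ^ j : ℝ) : ℂ) * ei ((⌊u⌋ : ℤ) * Real.log n) =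
      GM.Zb μ (momG μ y j) ⌊u⌋ := by
    simp only [GM.Zb, momG, GM.blk, ite_mul, one_mul, zero_mul]
    rw [sum_ite_mem, sum_ite_mem, inter_eq_right.2 hs,
      inter_eq_right.2 (Ico_subset_Ico_right hy)]
  rw [e1, e2, Real.rpow_zero, one_mul] at h
  have h3 : (8 : ℝ) * 1 * μ / 2 ^ J ≤ 8 := by
    rw [div_le_iff₀ (by positivity), mul_one]
    have : (μ : ℝ) ≤ 2 ^ J := by exact_mod_cast h2
    linarith
  have h4 := single_le_sum (f := fun j => ‖GM.Zb μ (momG μ y j) ⌊u⌋‖ ^ 4)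
    (fun _ _ => by positivity) (mem_range.2 hj)
  have h5 := (pow_le_pow_left₀ (norm_nonneg _) (h.trans (add_le_add_right h3 _)) 4).trans
    (mom_add _ _)
  rw [mul_pow] at h5
  linarith

lemma mom_J {N μ : ℕ} {L : ℝ} (hL : Lg N L) (hμ : 1 ≤ μ) (hN : 2 * μ ≤ N) :
    ∃ J : ℕ, 1 ≤ J ∧ μ ≤ 2 ^ J ∧ (J : ℝ) ≤ 2 * L := by
  refine ⟨Nat.log 2 μ + 1, Nat.le_add_left _ _, (Nat.lt_pow_succ_log_self one_lt_two μ).le, ?_⟩
  have h1 : 2 ^ (Nat.log 2 μ + 1) ≤ N := by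
    have := Nat.pow_log_le_self 2 (show μ ≠ 0 by omega)
    rw [pow_succ]
    omega
  generalize Nat.log 2 μ + 1 = J at h1
  have h2 : (2 : ℝ) ^ J ≤ N := by exact_mod_cast h1
  have h3 := Real.log_le_log (by positivity) h2
  rw [Real.log_pow] at h3
  have h4 := Real.log_two_gt_d9
  have h5 := hL.hlog
  nlinarith [Nat.cast_nonneg (α := ℝ) J]

theorem zs_four : ∃ C : ℝ, 0 ≤ C ∧ ∀ (N μ y R : ℕ) (L : ℝ) (K : Finset ℤ) (u : ℤ → ℝ), Lg N L →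
    1 ≤ μ → 2 * μ ≤ N → y ≤ 2 * μ → 1 ≤ R → R ≤ N → (∀ k ∈ K, ⌊u k⌋ = k ∧ 0 ≤ k ∧ k < R) →
      ∑ k ∈ K, ‖zs μ y (u k)‖ ^ 4 ≤ C * L ^ 4 * (R + μ ^ 2) * μ ^ 2 := by
  obtain ⟨C, hC, H⟩ := GM.moment
  refine ⟨32768 + 160000 * C, by positivity, fun N μ y R L K u hL hμ hN hy hR hRN hK => ?_⟩
  obtain ⟨J, hJ, h2, hJL⟩ := mom_J hL hμ hN
  have hI : K ⊆ Ico (0 : ℤ) (0 + R) := fun k hk =>
    mem_Ico.2 ⟨(hK k hk).2.1, by rw [zero_add]; exact (hK k hk).2.2⟩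
  have hc : (K.card : ℝ) ≤ R := by
    have := card_le_card hI
    rw [Int.card_Ico, zero_add, sub_zero, Int.toNat_natCast] at this
    exact_mod_cast this
  have hL1 := hL.one_le
  have hμ' : (1 : ℝ) ≤ μ := by exact_mod_cast hμ
  have hR' : (0 : ℝ) ≤ R := Nat.cast_nonneg _
  obtain ⟨X, hX⟩ : ∃ X : ℝ, X = (R + μ ^ 2) * μ ^ 2 := ⟨_, rfl⟩
  have hX0 : (R : ℝ) ≤ X := by
    rw [hX]
    exact (le_add_of_nonneg_right (by positivity)).trans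
      (le_mul_of_one_le_right (by positivity) (one_le_pow₀ hμ'))
  have h3 : ∀ j ∈ range J, ∑ k ∈ K, ‖GM.Zb μ (momG μ y j) k‖ ^ 4 ≤ C * (16 * L ^ 3 * X) :=
    fun j _ => by
      refine (H N (2 * μ) μ 2 R L hL hN hμ le_rfl one_le_two (by norm_num) hR
        (by nlinarith [hL.hN]) _ (mom_norm hμ hy j) 0 K hI).trans
        (mul_le_mul_of_nonneg_left ?_ hC.le)
      rw [hX]
      push_cast
      have : (0 : ℝ) ≤ L ^ 3 * R * μ ^ 2 := by positivity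
      nlinarith
  have h4 := sum_le_card_nsmul _ _ _ h3
  rw [card_range, nsmul_eq_mul] at h4
  have h5 : (J : ℝ) * (C * (16 * L ^ 3 * X)) ≤ 2 * L * (C * (16 * L ^ 3 * X)) :=
    mul_le_mul_of_nonneg_right hJL (by have := hR'.trans hX0; positivity)
  have h6 : X ≤ L ^ 4 * X := le_mul_of_one_le_left (hR'.trans hX0) (one_le_pow₀ hL1)
  calc ∑ k ∈ K, ‖zs μ y (u k)‖ ^ 4
      ≤ ∑ k ∈ K, (32768 + 5000 * ∑ j ∈ range J, ‖GM.Zb μ (momG μ y j) k‖ ^ 4) :=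
        sum_le_sum fun k hk => by
          have := mom_pt hμ hy hJ h2 (u k)
          rwa [(hK k hk).1] at this
    _ = 32768 * K.card + 5000 * ∑ j ∈ range J, ∑ k ∈ K, ‖GM.Zb μ (momG μ y j) k‖ ^ 4 := by
        rw [sum_add_distrib, ← mul_sum, sum_comm, sum_const, nsmul_eq_mul, mul_comm]
    _ ≤ (32768 + 160000 * C) * (L ^ 4 * X) := by nlinarith
    _ = _ := by rw [hX]; ring

theorem mj_four : ∃ C : ℝ, 0 ≤ C ∧ ∀ (N μ R : ℕ) (L : ℝ) (K : Finset ℤ) (u : ℤ → ℝ), Lg N L →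
    1 ≤ μ → 2 * μ ≤ N → 1 ≤ R → R ≤ N → (∀ k ∈ K, ⌊u k⌋ = k ∧ 0 ≤ k ∧ k < R) →
      ∑ k ∈ K, mj μ (u k) ^ 4 ≤ C * L ^ 4 * (R + μ ^ 2) * μ ^ 2 := by
  obtain ⟨C, hC, H⟩ := zs_four
  refine ⟨16 * C, by positivity, fun N μ R L K u hL hμ hN hR hRN hK => ?_⟩
  have hμ' : (0 : ℝ) < μ := by exact_mod_cast hμ
  have hcard : (Ioc μ (2 * μ)).card = μ := by rw [Nat.card_Ioc]; omega
  have h1 : ∀ t, mj μ t ^ 4 ≤
      8 * (‖zs μ (2 * μ) t‖ ^ 4 + (∑ y ∈ Ioc μ (2 * μ), ‖zs μ y t‖ ^ 4) / μ) := fun t => by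
    refine (mom_add _ _).trans (mul_le_mul_of_nonneg_left (add_le_add_right ?_ _) (by norm_num))
    have h2 := pow_sum_le_card_mul_sum_pow (s := Ioc μ (2 * μ)) (f := fun y => ‖zs μ y t‖)
      (fun _ _ => norm_nonneg _) 3
    rw [hcard] at h2
    rw [div_pow, div_le_div_iff₀ (by positivity) hμ']
    calc _ ≤ (μ : ℝ) ^ 3 * (∑ y ∈ Ioc μ (2 * μ), ‖zs μ y t‖ ^ 4) * μ :=
          mul_le_mul_of_nonneg_right h2 hμ'.le
      _ = _ := by ring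
  have h3 := H N μ (2 * μ) R L K u hL hμ hN le_rfl hR hRN hK
  have h4 := sum_le_card_nsmul (Ioc μ (2 * μ)) _ _ fun y hy =>
    H N μ y R L K u hL hμ hN (mem_Ioc.1 hy).2 hR hRN hK
  rw [hcard, nsmul_eq_mul, ← div_le_iff₀' hμ'] at h4
  refine (sum_le_sum fun k _ => h1 (u k)).trans ?_
  rw [← mul_sum, sum_add_distrib, ← sum_div, sum_comm]
  linarith

end Pool.Agent.Lib.MP_ecd12e_nt.ZD
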