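import Pool.Agent.Lib.MP_ecd12e_nt.ZD.App
import Pool.Agent.Lib.MP_ecd12e_nt.ZD.Mom

/-! The fourth moment of smooth zeta sums of any length. -/

namespace Pool.Agent.Lib.MP_ecd12e_nt.ZD

open Finset Real
open Pool.Agent.Lib.MP_ecd12e_nt.Bar (ei)
open Pool.Agent.Lib.MP_ecd12e_nt.Sch (Sm gg)

lemma four_I {N : ℕ} (hN : 1 ≤ N) {a : ℝ} (ha : 1 ≤ a) :
    ∃ J : ℕ, a ≤ 2 ^ (J + 1) * N ∧ (2 : ℝ) ^ J ≤ a ∧ (N : ℝ) * 2 ^ J ≤ N + a := by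
  classical
  have h1 : (1 : ℝ) ≤ N := by exact_mod_cast hN
  have h2 : ∃ J : ℕ, a ≤ 2 ^ (J + 1) * N := by
    obtain ⟨J, hJ⟩ := pow_unbounded_of_one_lt a (one_lt_two (α := ℝ))
    exact ⟨J, hJ.le.trans ((pow_le_pow_right₀ one_le_two J.le_succ).trans
      (le_mul_of_one_le_right (by positivity) h1))⟩
  refine ⟨Nat.find h2, Nat.find_spec h2, ?_⟩
  rcases h3 : Nat.find h2 with _ | J
  · constructor <;> simp only [pow_zero, mul_one] <;> linarith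
  · have h4 := not_le.1 (Nat.find_min h2 (m := J) (by omega))
    have h5 : (0 : ℝ) < 2 ^ (J + 1) := by positivity
    constructor <;> nlinarith

lemma four_pow {c x : ℝ} {I : ℕ} {f : ℕ → ℝ} (h0 : 0 ≤ x) (hf : ∀ i, 0 ≤ f i)
    (h : x ≤ c * (33 + ∑ i ∈ range I, f i)) :
    x ^ 4 ≤ 8 * c ^ 4 * (33 ^ 4 + I ^ 3 * ∑ i ∈ range I, f i ^ 4) := by
  have h1 := pow_sum_le_card_mul_sum_pow (s := range I) (fun i _ => hf i) 3
  have h2 := add_pow_le (by norm_num : (0 : ℝ) ≤ 33) (sum_nonneg (s := range I) fun i _ => hf i) 4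
  rw [card_range] at h1
  refine (pow_le_pow_left₀ h0 h 4).trans ?_
  rw [mul_pow, mul_comm 8, mul_assoc]
  refine mul_le_mul_of_nonneg_left (h2.trans ?_) (by positivity)
  norm_num at h1 ⊢
  linarith

lemma four_mj (μ : ℕ) (t : ℝ) : 0 ≤ mj μ t := by
  unfold mj
  positivity

theorem four {w : ℝ → ℝ} (h : Sm w) {ε : ℝ} (hε : 0 < ε) :
    ∃ C T1 : ℝ, 0 ≤ C ∧ ∀ (T : ℝ) (N : ℕ) (K : Finset ℤ) (u : ℤ → ℝ), T1 ≤ T → 1 ≤ N →
      (N : ℝ) ≤ 2 * T ^ 2 → (∀ k ∈ K, ⌊u k⌋ = k ∧ T / 4 ≤ u k ∧ u k ≤ 2 * T) →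
      ∑ k ∈ K, ‖gg w N (u k)‖ ^ 4 ≤ C * T ^ ε * (N ^ 2 * T + T ^ 2) := by
  obtain ⟨b, hb⟩ := exists_nat_ge (10 / ε)
  have hb0 : 0 < b := by exact_mod_cast (div_pos (by norm_num) hε).trans_le hb
  obtain ⟨C1, c1, h1⟩ := refl h (j := 4 * b) (by omega)
  obtain ⟨C2, c2, h2⟩ := mj_four
  obtain ⟨N0, h0⟩ := GM.eventually_Lg (B := 4 * b) (by omega) 1
  refine ⟨8 * C1 ^ 4 * (3 * 33 ^ 4 + 16 * 72 * C2), N0 + 16, by positivity,
    fun T N K u hT hN hNT hK => ?_⟩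
  have t16 : 16 ≤ T := by linarith [(Nat.cast_nonneg N0 : (0 : ℝ) ≤ N0)]
  have n1 : (1 : ℝ) ≤ N := by exact_mod_cast hN
  have t2 : 16 * T ≤ T ^ 2 := by nlinarith
  have t3 : 16 * T ^ 2 ≤ T ^ 3 := by nlinarith
  have t4 : 16 * T ^ 3 ≤ T ^ 4 := by nlinarith
  obtain ⟨M, m1, m2⟩ : ∃ M : ℕ, T ^ 3 ≤ M ∧ (M : ℝ) ≤ T ^ 4 :=
    ⟨_, Nat.le_ceil _, by linarith [Nat.ceil_lt_add_one (show 0 ≤ T ^ 3 by positivity)]⟩
  obtain ⟨R, r1, r2⟩ : ∃ R : ℕ, 2 * T < R ∧ (R : ℝ) ≤ 3 * T :=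
    ⟨⌊2 * T⌋₊ + 1, by exact_mod_cast Nat.lt_floor_add_one _, by
      push_cast
      linarith [Nat.floor_le (show 0 ≤ 2 * T by linarith)]⟩
  obtain ⟨hL, l1⟩ := h0 M (by exact_mod_cast (by linarith : (N0 : ℝ) ≤ M))
  have l2 : ((M : ℝ) ^ (1 / ((4 * b : ℕ) : ℝ))) ^ (4 * b) = M := by
    rw [one_div, Real.rpow_inv_natCast_pow (Nat.cast_nonneg M) (by omega)]
  generalize (M : ℝ) ^ (1 / ((4 * b : ℕ) : ℝ)) = L at hL l1 l2
  have l3 : L ^ b ≤ T := le_of_pow_le_pow_left₀ four_ne_zero (by linarith)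
    (by rw [← pow_mul, mul_comm, l2]; exact m2)
  have l4 : L ≤ T := (le_self_pow₀ l1 hb0.ne').trans l3
  have l5 : L ^ 10 ≤ T ^ ε := by
    refine le_trans ?_ (Real.rpow_le_rpow (by positivity) l3 hε.le)
    rw [← Real.rpow_natCast, ← Real.rpow_natCast, ← Real.rpow_mul (by linarith)]
    exact Real.rpow_le_rpow_of_exponent_le l1 (by simpa using (div_le_iff₀ hε).1 hb)
  have l6 : L * T ≤ T ^ 2 := by nlinarith
  obtain ⟨J, j1, j2, j3⟩ := four_I hN (a := 6 * (L * T)) (by nlinarith)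
  have j4 : ((J + 1 : ℕ) : ℝ) ≤ 2 * L := by
    have a1 := Real.log_le_log (by positivity) (show (2 : ℝ) ^ J ≤ M by linarith)
    have a2 := hL.hlog
    have a3 := Real.log_two_gt_d9
    have a4 : (0 : ℝ) ≤ J := Nat.cast_nonneg J
    rw [Real.log_pow] at a1
    push_cast
    nlinarith
  have k1 : ∀ k ∈ K, ⌊u k⌋ = k ∧ 0 ≤ k ∧ k < R := fun k hk => by
    obtain ⟨a1, a2, a3⟩ := hK k hk
    refine ⟨a1, a1 ▸ Int.floor_nonneg.2 (by linarith), a1 ▸ Int.floor_lt.2 ?_⟩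
    push_cast
    linarith
  have k2 : (K.card : ℝ) ≤ 3 * T := by
    have a1 := card_le_card (show K ⊆ Ico 0 (R : ℤ) from fun k hk => mem_Ico.2 (k1 k hk).2)
    rw [Int.card_Ico, sub_zero, Int.toNat_natCast] at a1
    exact le_trans (by exact_mod_cast a1) r2
  have k3 : ∀ k ∈ K, ‖gg w N (u k)‖ ^ 4 ≤ 8 * C1 ^ 4 * (33 ^ 4 + ((J + 1 : ℕ) : ℝ) ^ 3 *
      ∑ i ∈ range (J + 1), (√(N / 2 ^ i) * mj (2 ^ i) (u k)) ^ 4) := fun k hk => by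
    obtain ⟨-, a2, a3⟩ := hK k hk
    refine four_pow (norm_nonneg _) (fun i => mul_nonneg (sqrt_nonneg _) (four_mj _ _))
      ((h1 N (J + 1) L (u k) hN (by omega) (by linarith) ?_).trans
        (mul_le_mul_of_nonneg_left (add_le_add_left ?_ _) c1))
    · rw [abs_of_nonneg (by linarith)]
      nlinarith
    · have a4 : (N : ℝ) / (1 + u k ^ 2) ≤ 32 := by
        rw [div_le_iff₀ (by positivity)]
        nlinarith
      have a5 : (N : ℝ) * 2 ^ (J + 1) / L ^ (4 * b) ≤ 1 := by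
        rw [l2, div_le_one (by linarith), pow_succ, ← mul_assoc]
        linarith
      linarith
  have k4 : ∀ i ∈ range (J + 1), ∑ k ∈ K, (√(N / 2 ^ i) * mj (2 ^ i) (u k)) ^ 4 ≤
      72 * C2 * L ^ 6 * (N ^ 2 * T + T ^ 2) := fun i hi => by
    have a1 : (2 : ℝ) ^ i ≤ 2 ^ J := pow_le_pow_right₀ one_le_two (by simpa [Nat.lt_succ_iff] using hi)
    have a2 : (0 : ℝ) < 2 ^ i := by positivity
    have a3 := h2 M (2 ^ i) R L K u hL Nat.one_le_two_pow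
      (by exact_mod_cast (by linarith : 2 * (2 : ℝ) ^ i ≤ M))
      (by exact_mod_cast (by linarith : (1 : ℝ) ≤ R)) (by exact_mod_cast (by linarith : (R : ℝ) ≤ M)) k1
    have a4 : √((N : ℝ) / 2 ^ i) ^ 4 = (N / 2 ^ i) ^ 2 := by
      rw [show 4 = 2 * 2 from rfl, pow_mul, sq_sqrt (by positivity)]
    have a5 : ((N : ℝ) * 2 ^ i) ^ 2 ≤ (N + 6 * (L * T)) ^ 2 :=
      pow_le_pow_left₀ (by positivity) (le_trans (by gcongr) j3) 2
    have a6 : (1 : ℝ) ≤ L ^ 2 := one_le_pow₀ l1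
    have a7 : (0 : ℝ) ≤ N ^ 2 * T := by positivity
    have a8 : (N : ℝ) ^ 2 * R + (N * 2 ^ i) ^ 2 ≤ 72 * L ^ 2 * (N ^ 2 * T + T ^ 2) := by
      have b1 : (N : ℝ) ^ 2 * R ≤ N ^ 2 * (3 * T) := by gcongr
      have b2 : (N : ℝ) ^ 2 ≤ N ^ 2 * T := le_mul_of_one_le_right (by positivity) (by linarith)
      have b3 := mul_le_mul_of_nonneg_right a6 a7
      nlinarith [sq_nonneg ((N : ℝ) - 6 * (L * T))]
    simp only [mul_pow, a4, ← mul_sum]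
    push_cast at a3
    calc _ ≤ ((N : ℝ) / 2 ^ i) ^ 2 * (C2 * L ^ 4 * (R + (2 ^ i) ^ 2) * (2 ^ i) ^ 2) := by gcongr
      _ = C2 * L ^ 4 * (N ^ 2 * R + (N * 2 ^ i) ^ 2) := by field_simp
      _ ≤ C2 * L ^ 4 * (72 * L ^ 2 * (N ^ 2 * T + T ^ 2)) := by gcongr
      _ = _ := by ring
  have k5 := sum_le_sum k4
  rw [sum_const, card_range, nsmul_eq_mul, sum_comm] at k5
  have k6 : T ≤ L ^ 10 * (N ^ 2 * T + T ^ 2) := by
    have a1 : (1 : ℝ) ≤ L ^ 10 := one_le_pow₀ l1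
    have a2 : (0 : ℝ) ≤ N ^ 2 * T := by positivity
    exact le_trans (by linarith) (le_mul_of_one_le_left (by positivity) a1)
  refine (sum_le_sum k3).trans ?_
  rw [← mul_sum, sum_add_distrib, ← mul_sum, sum_const, nsmul_eq_mul, mul_assoc _ (T ^ ε),
    mul_assoc (8 * C1 ^ 4)]
  refine mul_le_mul_of_nonneg_left ?_ (by positivity)
  calc _ ≤ 3 * (L ^ 10 * (N ^ 2 * T + T ^ 2)) * 33 ^ 4 +
        (2 * L) ^ 3 * (2 * L * (72 * C2 * L ^ 6 * (N ^ 2 * T + T ^ 2))) := by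
        gcongr
        · linarith
        · exact k5.trans (by gcongr)
    _ = (3 * 33 ^ 4 + 16 * 72 * C2) * (L ^ 10 * (N ^ 2 * T + T ^ 2)) := by ring
    _ ≤ _ := by gcongr

end Pool.Agent.Lib.MP_ecd12e_nt.ZD
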