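import Pool.Agent.Lib.MP_ecd12e_nt.ZD.Defs
import Pool.Agent.Lib.MP_ecd12e_nt.Sch.Poisson
import Pool.Agent.Lib.MP_ecd12e_nt.Sch.RepA
import Pool.Agent.Lib.MP_ecd12e_nt.GM.Vdc

/-! One block of the dual sum is bounded by sharp zeta sums. -/

namespace Pool.Agent.Lib.MP_ecd12e_nt.ZD

open Finset Real MeasureTheory
open Pool.Agent.Lib.MP_ecd12e_nt.Bar (ei)
open Pool.Agent.Lib.MP_ecd12e_nt.Sch (Sm gg ff)

/-- The amplitude of the dual term. -/
noncomputable def am (w : ℝ → ℝ) (N : ℕ) (s t : ℝ) (m : ℕ) : ℂ :=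
  (N : ℂ) * ff w t (s * m * N) * ei (t * Real.log m)

/- Substitute `u = (μ / m) exp θ`: with `W x = x * w x` (`Sm.mul_id`) and `l = μ / m ∈ [1/2, 1]`,
`am = N * ei (t log μ) * ∫ θ in -1..2, W (l exp θ) * ei (t θ - 2 π s N μ exp θ)`
(compare `Sch.ff_exp` in `Sch/RepA`, `GM.kap_vdc` in `GM/Kv`). -/
theorem am_eq {w : ℝ → ℝ} (h : Sm w) (N : ℕ) (s t : ℝ) {μ m : ℕ} (hμ : 1 ≤ μ) (h1 : μ ≤ m)
    (h2 : m ≤ 2 * μ) :
    am w N s t m = N * ei (t * Real.log μ) * ∫ θ in (-1 : ℝ)..2,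
      (((μ / m * Real.exp θ) * w (μ / m * Real.exp θ) : ℝ) : ℂ) *
        ei (t * θ - 2 * π * s * N * μ * Real.exp θ) := by
  have hμ0 : (0 : ℝ) < μ := by exact_mod_cast hμ
  have hm1 : (μ : ℝ) ≤ m := by exact_mod_cast h1
  have hm2 : (m : ℝ) ≤ 2 * μ := by exact_mod_cast h2
  have hm0 : (0 : ℝ) < m := by linarith
  have hl : (0 : ℝ) < μ / m := by positivity
  have hl1 : (μ : ℝ) / m ≤ 1 := (div_le_one hm0).2 hm1
  have hl2 : (1 : ℝ) / 2 ≤ μ / m := by
    rw [div_le_div_iff₀ (by norm_num) hm0]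
    linarith
  have e := Sch.ff_exp h t (s * m * N) one_pos hl
  simp only [mul_one, div_one, Real.log_one, sub_zero, Complex.ofReal_one, one_mul] at e
  rw [intervalIntegral.integral_eq_integral_of_support_subset, am, e]
  · rw [mul_assoc (N : ℂ), mul_assoc (N : ℂ), ← integral_mul_const, ← integral_const_mul (ei _)]
    congr 1
    refine integral_congr_ae (ae_of_all _ fun a => ?_)
    have e1 : t * (Real.log (μ / m) + a) - 2 * π * (s * m * N) * (μ / m * Real.exp a) +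
        t * Real.log m = t * Real.log μ + (t * a - 2 * π * s * N * μ * Real.exp a) := by
      rw [Real.log_div hμ0.ne' hm0.ne']
      field_simp
      ring
    simp only
    rw [mul_assoc, ← Bar.ei_add, e1, Bar.ei_add, Complex.ofReal_mul (μ / m * Real.exp a)]
    ring
  · intro x hx
    by_contra hc
    refine hx ?_
    have hz : w (μ / m * Real.exp x) = 0 := h.supp _ (by
      rcases not_and_or.1 hc with h' | h'
      · left
        have a1 : Real.exp x ≤ Real.exp (-1) := Real.exp_le_exp.2 (not_lt.1 h')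
        have a2 : Real.exp (-1) < 3 / 4 := by
          rw [Real.exp_neg, inv_lt_comm₀ (Real.exp_pos 1) (by norm_num)]
          linarith [Real.exp_one_gt_d9]
        have a3 := mul_le_of_le_one_left (Real.exp_pos x).le hl1
        linarith
      · right
        have a1 : Real.exp 2 ≤ Real.exp x := Real.exp_le_exp.2 (not_le.1 h').le
        have a2 : 9 / 2 < Real.exp 2 := by
          have a0 : Real.exp 2 = Real.exp 1 * Real.exp 1 := by
            rw [← Real.exp_add]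
            norm_num
          nlinarith [Real.exp_one_gt_d9]
        have a3 := mul_le_mul_of_nonneg_right hl2 (Real.exp_pos x).le
        linarith)
    simp [hz]

lemma refl_lip {φ : ℝ → ℝ} (h : Sm φ) : ∃ C : ℝ, 0 ≤ C ∧ ∀ x y, |φ x - φ y| ≤ C * |x - y| := by
  obtain ⟨C, hC, hb⟩ := h.deriv.bdd
  refine ⟨C, hC, fun x y => ?_⟩
  have hd : Differentiable ℝ φ := (h.smooth 1).differentiable (by norm_num)
  exact convex_univ.norm_image_sub_le_of_norm_deriv_le (𝕜 := ℝ) (fun z _ => hd z)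
    (fun z _ => hb z) (Set.mem_univ y) (Set.mem_univ x)

lemma refl_osc {b b' : ℝ → ℝ} {β N μ s : ℝ} (t : ℝ) (hβ : 0 ≤ β) (hN : 1 ≤ N) (hμ : 1 ≤ μ)
    (hs : |s| = 1) (hb : ∀ x, HasDerivAt b (b' x) x) (hb' : Continuous b')
    (h0 : ∀ x ∈ Set.Icc (-1 : ℝ) 2, |b x| ≤ β) (h1 : ∀ x ∈ Set.Icc (-1 : ℝ) 2, |b' x| ≤ β) :
    N * ‖∫ θ in (-1 : ℝ)..2, (b θ : ℂ) * ei (t * θ - 2 * π * s * N * μ * Real.exp θ)‖ ≤
      10 * β * √(N / μ) := by
  have hN0 : 0 < N := by linarith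
  have hμ0 : 0 < μ := by linarith
  have ha : 0 < N * μ := by positivity
  have hη : 0 < √(N * μ) := sqrt_pos.2 ha
  have hA : |-(2 * π * s * N * μ)| = 2 * π * (N * μ) := by
    have e : -(2 * π * s * N * μ) = -s * (2 * π * (N * μ)) := by ring
    rw [e, abs_mul, abs_neg, hs, one_mul, abs_of_pos (by positivity)]
  have hA0 : -(2 * π * s * N * μ) ≠ 0 := by
    rw [← abs_pos, hA]
    positivity
  have h := GM.vdc2 (x0 := -1) (x1 := 2) (A := -(2 * π * s * N * μ)) (B := t) (β0 := β) (β1 := β)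
    (κ0 := β) (φ := fun x => t * x - 2 * π * s * N * μ * Real.exp x) (k := fun _ => 1) (b := b)
    (b' := b') (by norm_num) hη hA0 (fun x _ => by
      refine (((hasDerivAt_id' x).const_mul t).fun_sub
        ((hasDerivAt_exp x).const_mul (2 * π * s * N * μ))).congr_deriv ?_
      ring) continuousOn_const (fun x _ => hb x) hb'.continuousOn h0 h1
    (fun x hx => by simpa using h0 x hx)
  simp only [mul_one] at h
  have h2 : 2 * √(N * μ) / (|-(2 * π * s * N * μ)| * exp (-1)) ≤ 1 / √(N * μ) := by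
    rw [hA, div_le_div_iff₀ (by positivity) hη, mul_assoc 2, mul_self_sqrt ha.le]
    have h3 : 1 ≤ π * exp (-1) := by
      rw [exp_neg, ← div_eq_mul_inv, le_div_iff₀ (exp_pos 1)]
      linarith [exp_one_lt_d9, pi_gt_three]
    nlinarith
  have h4 : √(N / μ) = N / √(N * μ) := by
    rw [eq_div_iff hη.ne', ← sqrt_mul (by positivity)]
    have e : N / μ * (N * μ) = N * N := by field_simp
    rw [e, sqrt_mul_self hN0.le]
  calc _ ≤ N * ((6 * β + β * (2 - -1)) / √(N * μ) + β * (1 / √(N * μ))) := by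
        refine mul_le_mul_of_nonneg_left (h.trans ?_) hN0.le
        gcongr
    _ = _ := by
        rw [h4]
        ring

lemma refl_der {W : ℝ → ℝ} (h : Sm W) (l x : ℝ) :
    HasDerivAt (fun θ => W (l * Real.exp θ)) (l * Real.exp x * deriv W (l * Real.exp x)) x := by
  have hd : Differentiable ℝ W := (h.smooth 1).differentiable (by norm_num)
  have h1 := (hd (l * Real.exp x)).hasDerivAt.comp x ((hasDerivAt_exp x).const_mul l)
  exact h1.congr_deriv (mul_comm _ _)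

lemma refl_cont {W : ℝ → ℝ} (h : Sm W) (l : ℝ) : Continuous fun θ => W (l * Real.exp θ) :=
  (h.smooth 0).continuous.comp (continuous_const.mul Real.continuous_exp)

/- `GM.vdc2` with `A = -2 π s N μ`, `B = t`, `k = 1`, `η = √(N μ)`. For the difference the amplitude
is `W (l exp θ) - W (l' exp θ)` with `|l - l'| ≤ 1 / μ`; its derivative is the same expression for
`W2 x = x * deriv W x`; both `W` and `W2` are Lipschitz (`Sm.deriv`, `Sm.bdd`). -/
theorem am_le {w : ℝ → ℝ} (h : Sm w) : ∃ C : ℝ, 0 ≤ C ∧ ∀ (N μ m : ℕ) (s t : ℝ), 1 ≤ N → 1 ≤ μ →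
    |s| = 1 → μ ≤ m → m < 2 * μ →
      ‖am w N s t m‖ ≤ C * √(N / μ) ∧
        ‖am w N s t (m + 1) - am w N s t m‖ ≤ C * √(N / μ) / μ := by
  have hW := h.mul_id
  have hW2 := hW.deriv.mul_id
  obtain ⟨B1, hB1, b1⟩ := hW.bdd
  obtain ⟨B2, hB2, b2⟩ := hW2.bdd
  obtain ⟨L1, hL1, l1⟩ := refl_lip hW
  obtain ⟨L2, hL2, l2⟩ := refl_lip hW2
  have hE : 0 < Real.exp 2 := Real.exp_pos 2
  refine ⟨10 * (B1 + B2 + (L1 + L2) * Real.exp 2), by positivity, ?_⟩
  intro N μ m s t hN hμ hs h1 h2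
  have hN1 : (1 : ℝ) ≤ N := by exact_mod_cast hN
  have hμ1 : (1 : ℝ) ≤ μ := by exact_mod_cast hμ
  have hμ0 : (0 : ℝ) < μ := by linarith
  have hm1 : (μ : ℝ) ≤ m := by exact_mod_cast h1
  have hm0 : (0 : ℝ) < m := by linarith
  have hq : 0 ≤ √((N : ℝ) / μ) := sqrt_nonneg _
  have hLE : 0 ≤ (L1 + L2) * Real.exp 2 := by positivity
  have nrm : ∀ z : ℂ, ‖(N : ℂ) * ei (t * Real.log μ) * z‖ = N * ‖z‖ := fun z => by
    rw [norm_mul, norm_mul, Bar.norm_ei, mul_one, Complex.norm_natCast]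
  constructor
  · rw [am_eq h N s t hμ h1 h2.le, nrm]
    refine (refl_osc (β := B1 + B2) t (by positivity) hN1 hμ1 hs (refl_der hW (μ / m))
      (refl_cont hW2 (μ / m)) (fun x _ => (b1 _).trans (by linarith))
      (fun x _ => (b2 _).trans (by linarith))).trans ?_
    refine mul_le_mul_of_nonneg_right ?_ hq
    linarith
  · have ci : ∀ l : ℝ, IntervalIntegrable (fun θ : ℝ =>
        (((l * Real.exp θ) * w (l * Real.exp θ) : ℝ) : ℂ) *
          ei (t * θ - 2 * π * s * N * μ * Real.exp θ)) volume (-1) 2 := fun l =>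
      ((Complex.continuous_ofReal.comp (refl_cont hW l)).mul
        (Sch.continuous_ei.comp (by fun_prop))).intervalIntegrable _ _
    have gap : ∀ x ∈ Set.Icc (-1 : ℝ) 2,
        |(μ : ℝ) / ((m + 1 : ℕ) : ℝ) * Real.exp x - μ / m * Real.exp x| ≤ Real.exp 2 / μ := by
      intro x hx
      have a1 : Real.exp x ≤ Real.exp 2 := Real.exp_le_exp.2 hx.2
      have a2 : (μ : ℝ) / ((m + 1 : ℕ) : ℝ) - μ / m = -(μ / (m * (m + 1))) := by
        push_cast
        field_simp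
        ring
      have a3 : (μ : ℝ) / (m * (m + 1)) ≤ 1 / μ := by
        rw [div_le_div_iff₀ (by positivity) hμ0]
        nlinarith
      rw [← sub_mul, abs_mul, a2, abs_neg, abs_of_pos (by positivity), abs_of_pos (exp_pos x)]
      calc _ ≤ 1 / (μ : ℝ) * Real.exp 2 := by gcongr
        _ = _ := by ring
    have up : ∀ L : ℝ, 0 ≤ L → L ≤ L1 + L2 → ∀ x ∈ Set.Icc (-1 : ℝ) 2,
        L * |(μ : ℝ) / ((m + 1 : ℕ) : ℝ) * Real.exp x - μ / m * Real.exp x| ≤
          (L1 + L2) * Real.exp 2 / μ := by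
      intro L hL hL' x hx
      rw [mul_div_assoc]
      exact mul_le_mul hL' (gap x hx) (abs_nonneg _) (by positivity)
    rw [am_eq h N s t hμ h1 h2.le, am_eq h N s t hμ (h1.trans (Nat.le_succ m)) h2, ← mul_sub, nrm,
      ← intervalIntegral.integral_sub (ci _) (ci _)]
    have o := refl_osc (β := (L1 + L2) * Real.exp 2 / μ) t (by positivity) hN1 hμ1 hs
      (fun x => (refl_der hW (μ / ((m + 1 : ℕ) : ℝ)) x).fun_sub (refl_der hW (μ / m) x))
      ((refl_cont hW2 (μ / ((m + 1 : ℕ) : ℝ))).sub (refl_cont hW2 (μ / m)))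
      (fun x hx => (l1 _ _).trans (up L1 hL1 (by linarith) x hx))
      (fun x hx => (l2 _ _).trans (up L2 hL2 (by linarith) x hx))
    simp only [Complex.ofReal_sub, sub_mul] at o
    refine o.trans ?_
    have e : 10 * ((L1 + L2) * Real.exp 2 / μ) * √((N : ℝ) / μ) =
        10 * ((L1 + L2) * Real.exp 2) * √((N : ℝ) / μ) / μ := by ring
    rw [e]
    gcongr
    linarith

lemma refl_abel (a e : ℕ → ℂ) (μ : ℕ) {y : ℕ} (hy : μ ≤ y) :
    ∑ m ∈ Ico μ y, a m * e m = a y * ∑ m ∈ Ico μ y, e m -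
      ∑ m ∈ Ico μ y, (a (m + 1) - a m) * ∑ n ∈ Ico μ (m + 1), e n := by
  induction y, hy using Nat.le_induction with
  | base => simp
  | succ y hy ih =>
    rw [sum_Ico_succ_top hy, ih, sum_Ico_succ_top hy
      (fun m => (a (m + 1) - a m) * ∑ n ∈ Ico μ (m + 1), e n), sum_Ico_succ_top hy e]
    ring

lemma refl_conj (μ y : ℕ) (t : ℝ) :
    ‖∑ m ∈ Ico μ y, ei (-(t * Real.log m))‖ = ‖zs μ y t‖ := by
  rw [← Complex.norm_conj (zs μ y t), zs, map_sum]
  simp only [Bar.conj_ei]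

/- `N * ff w t (s m N) = am m * ei (-t log m)`; Abel summation over `Ico μ (2 μ)`;
`‖zs μ y (-t)‖ = ‖zs μ y t‖` by conjugation. -/
theorem block_le {w : ℝ → ℝ} (h : Sm w) : ∃ C : ℝ, 0 ≤ C ∧ ∀ (N μ : ℕ) (s t : ℝ), 1 ≤ N → 1 ≤ μ →
    |s| = 1 → ‖∑ m ∈ Ico μ (2 * μ), (N : ℂ) * ff w t (s * m * N)‖ ≤ C * √(N / μ) * mj μ t := by
  obtain ⟨C, hC, H⟩ := am_le h
  refine ⟨2 * C, by positivity, fun N μ s t hN hμ hs => ?_⟩
  have hμ1 : (1 : ℝ) ≤ μ := by exact_mod_cast hμ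
  have hμ0 : (0 : ℝ) < μ := by linarith
  obtain ⟨X, hX⟩ : ∃ X : ℝ, X = C * √((N : ℝ) / μ) := ⟨_, rfl⟩
  have hX0 : 0 ≤ X := by
    rw [hX]
    positivity
  have e1 : ∀ m : ℕ, (N : ℂ) * ff w t (s * m * N) =
      am w N s t m * ei (-(t * Real.log m)) := fun m => by
    rw [am, mul_assoc _ (ei _), ← Bar.ei_add, add_neg_cancel, Bar.ei_zero, mul_one]
  have top : ‖am w N s t (2 * μ)‖ ≤ 2 * X := by
    obtain ⟨k, hk⟩ : ∃ k, 2 * μ = k + 1 := ⟨2 * μ - 1, by omega⟩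
    obtain ⟨a1, a2⟩ := H N μ k s t hN hμ hs (by omega) (by omega)
    rw [← hX] at a1 a2
    have a3 : X / μ ≤ X := div_le_self hX0 hμ1
    have a4 := norm_le_norm_add_norm_sub' (am w N s t (k + 1)) (am w N s t k)
    rw [hk]
    linarith
  have sh : ∑ m ∈ Ico μ (2 * μ), ‖zs μ (m + 1) t‖ = ∑ y ∈ Ioc μ (2 * μ), ‖zs μ y t‖ := by
    rw [sum_Ico_add' (fun y => ‖zs μ y t‖) μ (2 * μ) 1]
    refine sum_congr ?_ fun _ _ => rfl
    ext y
    simp only [mem_Ico, mem_Ioc]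
    omega
  have hS : 0 ≤ ∑ y ∈ Ioc μ (2 * μ), ‖zs μ y t‖ := sum_nonneg fun _ _ => norm_nonneg _
  rw [sum_congr rfl fun m _ => e1 m, refl_abel _ _ μ (by omega)]
  refine (norm_sub_le _ _).trans ?_
  have b1 : ‖am w N s t (2 * μ) * ∑ m ∈ Ico μ (2 * μ), ei (-(t * Real.log m))‖ ≤
      2 * X * ‖zs μ (2 * μ) t‖ := by
    rw [norm_mul, refl_conj]
    exact mul_le_mul_of_nonneg_right top (norm_nonneg _)
  have b2 : ‖∑ m ∈ Ico μ (2 * μ), (am w N s t (m + 1) - am w N s t m) *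
      ∑ n ∈ Ico μ (m + 1), ei (-(t * Real.log n))‖ ≤
      X / μ * ∑ y ∈ Ioc μ (2 * μ), ‖zs μ y t‖ := by
    rw [← sh, mul_sum]
    refine (norm_sum_le _ _).trans (sum_le_sum fun m hm => ?_)
    rw [norm_mul, refl_conj, hX]
    exact mul_le_mul_of_nonneg_right
      (H N μ m s t hN hμ hs (mem_Ico.1 hm).1 (mem_Ico.1 hm).2).2 (norm_nonneg _)
  have b3 : 0 ≤ X / μ * ∑ y ∈ Ioc μ (2 * μ), ‖zs μ y t‖ := by positivity
  calc _ ≤ 2 * X * ‖zs μ (2 * μ) t‖ + 2 * (X / μ * ∑ y ∈ Ioc μ (2 * μ), ‖zs μ y t‖) := by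
        linarith
    _ = _ := by
        rw [hX, mj]
        ring

end Pool.Agent.Lib.MP_ecd12e_nt.ZD
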