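import Pool.Agent.Lib.MP_ecd12e_nt.ZD.Defs

/-! From a complex point to the nearest integer point, by the Taylor series. -/

namespace Pool.Agent.Lib.MP_ecd12e_nt.ZD

open Finset Real
open Pool.Agent.Lib.MP_ecd12e_nt.Bar (ei)

lemma tay_log {N n : ℕ} (hN : 1 ≤ N) (hn : n ∈ Icc N (2 * N)) :
    0 ≤ Real.log (n / N) ∧ Real.log (n / N) ≤ 7 / 10 := by
  have h0 : (0 : ℝ) < N := by exact_mod_cast hN
  obtain ⟨h1, h2⟩ := mem_Icc.1 hn
  have h3 : (1 : ℝ) ≤ n / N := (one_le_div h0).2 (by exact_mod_cast h1)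
  have h4 : (n : ℝ) / N ≤ 2 := (div_le_iff₀ h0).2 (by exact_mod_cast h2)
  exact ⟨Real.log_nonneg h3, (Real.log_le_log (by linarith) h4).trans
    (by have := Real.log_two_lt_d9; linarith)⟩

lemma tay_fac (J : ℕ) : (2 : ℝ) ^ (J + 1) ≤ 2 * (J + 1).factorial := by
  induction J with
  | zero => simp
  | succ J ih =>
    rw [pow_succ, Nat.factorial_succ (J + 1)]
    push_cast
    have : (0 : ℝ) ≤ (J + 1).factorial := by positivity
    have : (0 : ℝ) ≤ J := by positivity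
    nlinarith

lemma tay_rem {z : ℂ} (hz : ‖z‖ ≤ 1) {J : ℕ} (hJ : 1 ≤ J) :
    ‖Complex.exp z - ∑ m ∈ range J, z ^ m / m.factorial‖ ≤ 4 / 2 ^ J := by
  refine (Complex.exp_bound' (n := J) ?_).trans ?_
  · have : (2 : ℝ) ≤ (J.succ : ℕ) := by exact_mod_cast Nat.succ_le_succ hJ
    rw [div_le_div_iff₀ (by linarith) two_pos]
    linarith
  · obtain ⟨k, rfl⟩ := Nat.exists_eq_add_of_le' hJ
    have h1 := tay_fac k
    have h2 : ‖z‖ ^ (k + 1) ≤ 1 := pow_le_one₀ (norm_nonneg _) hz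
    have h3 : (0 : ℝ) < (k + 1).factorial := by positivity
    rw [div_mul_eq_mul_div, div_le_div_iff₀ h3 (by positivity)]
    have h4 : (0 : ℝ) < 2 ^ (k + 1) := by positivity
    nlinarith

lemma tay_exp : Real.exp (10 / 7) ≤ 5 := by
  have h1 : Real.exp (10 / 7) ^ 2 ≤ Real.exp 1 ^ 3 := by
    rw [← Real.exp_nat_mul, ← Real.exp_nat_mul]
    exact Real.exp_le_exp.2 (by norm_num)
  have h2 : Real.exp 1 ^ 3 ≤ (11 / 4) ^ 3 :=
    pow_le_pow_left₀ (Real.exp_pos 1).le (by have := Real.exp_one_lt_d9; linarith) 3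
  exact le_of_sq_le_sq (by nlinarith) (by norm_num)

lemma tay_id {N n : ℕ} (hN : 1 ≤ N) (hn : N ≤ n) (β u k : ℝ) :
    (((N : ℝ) ^ β : ℝ) : ℂ) * pw β u n = ei ((u - k) * Real.log N) *
      (Complex.exp ((-β + (u - k : ℝ) * Complex.I) * (Real.log (n / N) : ℝ)) *
        ei (k * Real.log n)) := by
  have h0 : (0 : ℝ) < N := by exact_mod_cast hN
  have h1 : (0 : ℝ) < n := by exact_mod_cast hN.trans hn
  rw [pw, Real.rpow_def_of_pos h0, Real.rpow_def_of_pos h1, Real.log_div h1.ne' h0.ne',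
    Complex.ofReal_exp, Complex.ofReal_exp]
  unfold ei
  simp only [← Complex.exp_add]
  congr 1
  push_cast
  ring

/- Put `x n = log (n / N) ∈ [0, log 2]`, `θ = u - ⌊u⌋`, `s = -β + θ i`, `‖s‖ ≤ √2`, so
`‖s x‖ ≤ 1`. Then `N ^ β * pw β u n = ei (θ log N) * cexp (s * x n) * ei (⌊u⌋ log n)`.
`Complex.exp_bound` gives the remainder `2 / J! ≤ 4 / 2 ^ J` for each of the `N + 1 ≤ 2 N` terms;
`∑ j < J, ‖s‖ ^ j / j! ≤ exp (3 / 2) ≤ 5`; take `j` with the largest norm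
(`exists_max_image`). -/
theorem taylor {N J : ℕ} (hN : 1 ≤ N) (hJ : 1 ≤ J) {a : ℕ → ℂ} {B β : ℝ}
    (ha : ∀ n ∈ Icc N (2 * N), ‖a n‖ ≤ B) (h0 : 0 ≤ β) (h1 : β ≤ 1) (u : ℝ) :
    ∃ j < J, (N : ℝ) ^ β * ‖∑ n ∈ Icc N (2 * N), a n * pw β u n‖ ≤
      5 * ‖∑ n ∈ Icc N (2 * N), a n * ((Real.log (n / N) ^ j : ℝ) : ℂ) *
        ei ((⌊u⌋ : ℤ) * Real.log n)‖ + 8 * B * N / 2 ^ J := by
  obtain ⟨j, hj, hm⟩ := exists_max_image (range J) (fun j => ‖∑ n ∈ Icc N (2 * N),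
    a n * ((Real.log (n / N) ^ j : ℝ) : ℂ) * ei ((⌊u⌋ : ℤ) * Real.log n)‖) ⟨0, mem_range.2 hJ⟩
  refine ⟨j, mem_range.1 hj, ?_⟩
  generalize ‖∑ n ∈ Icc N (2 * N), a n * ((Real.log (n / N) ^ j : ℝ) : ℂ) *
    ei ((⌊u⌋ : ℤ) * Real.log n)‖ = M at hm
  have hM : 0 ≤ M := (norm_nonneg _).trans (hm j hj)
  have hB : 0 ≤ B := (norm_nonneg _).trans (ha N (mem_Icc.2 ⟨le_rfl, by omega⟩))
  have t0 : 0 ≤ u - ⌊u⌋ := sub_nonneg.2 (Int.floor_le u)
  have t1 : u - ⌊u⌋ ≤ 1 := by have := Int.lt_floor_add_one u; linarith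
  generalize ((⌊u⌋ : ℤ) : ℝ) = k at hm t0 t1
  set s : ℂ := -β + (u - k : ℝ) * Complex.I with hs
  have s1 : ‖s‖ ≤ 10 / 7 := by
    refine le_of_sq_le_sq ?_ (by norm_num)
    rw [hs, ← Complex.ofReal_neg, Complex.sq_norm, Complex.normSq_add_mul_I]
    nlinarith
  have e1 : (N : ℝ) ^ β * ‖∑ n ∈ Icc N (2 * N), a n * pw β u n‖ = ‖∑ n ∈ Icc N (2 * N),
      a n * (Complex.exp (s * (Real.log (n / N) : ℝ)) * ei (k * Real.log n))‖ := by
    rw [← Real.norm_of_nonneg (by positivity : 0 ≤ (N : ℝ) ^ β), ← Complex.norm_real, ← norm_mul,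
      ← one_mul ‖∑ n ∈ Icc N (2 * N), a n * (_ * _)‖, ← Bar.norm_ei ((u - k) * Real.log N),
      ← norm_mul, mul_sum, mul_sum]
    refine congrArg _ (sum_congr rfl fun n hn => ?_)
    rw [mul_left_comm, tay_id hN (mem_Icc.1 hn).1 β u k, mul_left_comm]
  have e2 : ∑ n ∈ Icc N (2 * N), a n * (Complex.exp (s * (Real.log (n / N) : ℝ)) *
      ei (k * Real.log n)) = ∑ i ∈ range J, s ^ i / i.factorial * ∑ n ∈ Icc N (2 * N),
        a n * ((Real.log (n / N) ^ i : ℝ) : ℂ) * ei (k * Real.log n) +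
      ∑ n ∈ Icc N (2 * N), a n * ((Complex.exp (s * (Real.log (n / N) : ℝ)) -
        ∑ m ∈ range J, (s * (Real.log (n / N) : ℝ)) ^ m / m.factorial) * ei (k * Real.log n)) := by
    simp only [mul_sum]
    rw [sum_comm, ← sum_add_distrib]
    refine sum_congr rfl fun n _ => ?_
    rw [sub_mul, mul_sub, sum_mul, mul_sum, eq_comm, add_sub_assoc', add_comm, add_sub_assoc,
      add_eq_left, sub_eq_zero]
    refine sum_congr rfl fun i _ => ?_
    rw [Complex.ofReal_pow]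
    ring_nf
  rw [e1, e2]
  refine (norm_add_le _ _).trans (add_le_add ((norm_sum_le _ _).trans ?_)
    ((norm_sum_le _ _).trans ?_))
  · refine (sum_le_sum (g := fun i => (10 / 7 : ℝ) ^ i / i.factorial * M) fun i hi => ?_).trans ?_
    · rw [norm_mul, norm_div, norm_pow, Complex.norm_natCast]
      gcongr
      exact hm i hi
    · rw [← sum_mul]
      exact mul_le_mul_of_nonneg_right ((Real.sum_le_exp_of_nonneg (by norm_num) J).trans tay_exp) hM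
  · refine (sum_le_card_nsmul _ _ (B * (4 / 2 ^ J)) fun n hn => ?_).trans ?_
    · obtain ⟨l0, l1⟩ := tay_log hN hn
      rw [norm_mul, norm_mul, Bar.norm_ei, mul_one]
      refine mul_le_mul (ha n hn) (tay_rem ?_ hJ) (norm_nonneg _) hB
      rw [norm_mul, Complex.norm_real, Real.norm_of_nonneg l0]
      nlinarith [norm_nonneg s]
    · have h2 : (((Icc N (2 * N)).card : ℕ) : ℝ) ≤ 2 * N := by
        rw [Nat.card_Icc]
        exact_mod_cast (by omega : 2 * N + 1 - N ≤ 2 * N)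
      rw [nsmul_eq_mul]
      refine (mul_le_mul_of_nonneg_right h2 (by positivity)).trans_eq (by ring)

theorem abs_log_pow {N n : ℕ} (hN : 1 ≤ N) (hn : n ∈ Icc N (2 * N)) (j : ℕ) :
    |Real.log (n / N) ^ j| ≤ 1 := by
  obtain ⟨l0, l1⟩ := tay_log hN hn
  rw [abs_of_nonneg (by positivity)]
  exact pow_le_one₀ l0 (by linarith)

end Pool.Agent.Lib.MP_ecd12e_nt.ZD
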