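import Pool.Agent.Lib.MP_ecd12e_nt.ZD.Bridge

/-! The density hypothesis in the range `7 / 9 ≤ σ ≤ 1`. -/

namespace Pool.Agent.Lib.MP_ecd12e_nt.ZD

theorem zeta_density :
    ∀ ε : ℝ, 0 < ε → ∃ C : ℝ, ∀ σ T : ℝ, 7 / 9 ≤ σ → σ ≤ 1 → 1 ≤ T →
      ∀ Z : Finset ℂ, (∀ ρ ∈ Z, riemannZeta ρ = 0 ∧ σ ≤ ρ.re ∧ |ρ.im| ≤ T) →
        ∑ ρ ∈ Z, (analyticOrderNatAt riemannZeta ρ : ℝ) ≤ C * T ^ (2 * (1 - σ) + ε) :=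
  density eta

end Pool.Agent.Lib.MP_ecd12e_nt.ZD
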